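import Mathlib

/-!
# Measures on Cantor sets given by separated children

`cantor`: in every interval `[x, x + δ k]` there are `n k + 1` points at mutual distances at least `ε k`,
and the intervals of length `δ (k + 1)` at these points are in `T k` and in the interval. The
probability measure which gives the same mass to all the intervals of a level is carried by the
intersection of the `T k`, and the mass of short intervals is bounded.
-/

set_option autoImplicit false

namespace Pool.Agent.HP25.NC

open MeasureTheory ProbabilityTheory Filter Topology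

/-- the number of separated points in an interval -/
lemma sep_card {S : Finset ℝ} {x l ε : ℝ} (hε : 0 < ε) (hl : 0 ≤ l) (hS : ∀ z ∈ S, x ≤ z ∧ z ≤ x + l)
    (hsep : ∀ z ∈ S, ∀ w ∈ S, z ≠ w → ε ≤ |z - w|) : (S.card : ℝ) ≤ l / ε + 1 := by
  have h0 : 0 ≤ l / ε := div_nonneg hl hε.le
  have hinj : Set.InjOn (fun z : ℝ => ⌊(z - x) / ε⌋) (S : Set ℝ) := by
    intro z hz w hw h
    by_contra hne
    have h1 := hsep z hz w hw hne
    have h2 := Int.abs_sub_lt_one_of_floor_eq_floor h
    have h3 : (z - x) / ε - (w - x) / ε = (z - w) / ε := by ring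
    rw [h3, abs_div, abs_of_pos hε, div_lt_one hε] at h2
    linarith
  have hmaps : ∀ z ∈ S, ⌊(z - x) / ε⌋ ∈ Finset.Icc (0 : ℤ) ⌊l / ε⌋ := by
    intro z hz
    obtain ⟨h1, h2⟩ := hS z hz
    rw [Finset.mem_Icc]
    refine ⟨Int.floor_nonneg.2 (div_nonneg (by linarith) hε.le), Int.floor_le_floor ?_⟩
    exact div_le_div_of_nonneg_right (by linarith) hε.le
  have h1 := Finset.card_le_card_of_injOn _ hmaps hinj
  rw [Int.card_Icc] at h1
  have h2 : (S.card : ℤ) ≤ ⌊l / ε⌋ + 1 := by
    have h3 : (0 : ℤ) ≤ ⌊l / ε⌋ := Int.floor_nonneg.2 h0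
    omega
  have h3 : (S.card : ℝ) ≤ (⌊l / ε⌋ : ℝ) + 1 := by exact_mod_cast h2
  linarith [Int.floor_le (l / ε)]

section

variable (n : ℕ → ℕ) (φ : ∀ k, ℝ → Fin (n k + 1) → ℝ) (u : ℝ)

/-- the uniform distribution on the sequences of digits -/
noncomputable def P : Measure (∀ k, Fin (n k + 1)) :=
  Measure.infinitePi fun k => (PMF.uniformOfFintype (Fin (n k + 1))).toMeasure

instance : IsProbabilityMeasure (P n) := by
  unfold P
  infer_instance

/-- the left end points -/
def pos : ℕ → (∀ k, Fin (n k + 1)) → ℝ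
  | 0, _ => u
  | k + 1, ω => φ k (pos k ω) (ω k)

lemma pos_meas (k : ℕ) : Measurable (pos n φ u k) ∧ (Set.range (pos n φ u k)).Countable := by
  induction k with
  | zero =>
    refine ⟨measurable_const, ?_⟩
    have : Set.range (pos n φ u 0) ⊆ {u} := by
      rintro _ ⟨ω, rfl⟩
      rfl
    exact (Set.countable_singleton u).mono this
  | succ k ih =>
    obtain ⟨h1, h2⟩ := ih
    have hc : Countable (Set.range (pos n φ u k)) := h2.to_subtype
    set f : (Set.range (pos n φ u k)) × Fin (n k + 1) → ℝ := fun p => φ k p.1 p.2 with hf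
    have h3 : pos n φ u (k + 1) = f ∘ fun ω => (⟨pos n φ u k ω, Set.mem_range_self ω⟩, ω k) := by
      funext ω
      rfl
    constructor
    · rw [h3]
      refine (measurable_of_countable f).comp ?_
      exact (h1.subtype_mk).prodMk (measurable_pi_apply k)
    · rw [h3]
      exact (Set.countable_range f).mono (Set.range_comp_subset_range _ _)

/-- the probability that the first digits are given and the next one is in a set -/
lemma prob_digits (k : ℕ) (ω₀ : ∀ k, Fin (n k + 1)) (A : Finset (Fin (n k + 1))) :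
    (P n).real {ω | (∀ i < k, ω i = ω₀ i) ∧ ω k ∈ A} = (∏ i ∈ Finset.range (k + 1), (1 : ℝ) / (n i + 1)) * A.card := by
  classical
  set t : ∀ i, Set (Fin (n i + 1)) := fun i => if h : i = k then (h ▸ (A : Set (Fin (n k + 1)))) else {ω₀ i} with ht
  have htk : t k = (A : Set (Fin (n k + 1))) := by
    simp [ht]
  have hti : ∀ i, i ≠ k → t i = {ω₀ i} := by
    intro i hi
    simp only [ht]
    rw [dif_neg hi]
  have hset : {ω : ∀ k, Fin (n k + 1) | (∀ i < k, ω i = ω₀ i) ∧ ω k ∈ A} = Set.pi (Finset.range (k + 1) : Finset ℕ) t := by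
    ext ω
    simp only [Set.mem_ofPred_eq, Set.mem_pi, Finset.coe_range, Set.mem_Iio]
    constructor
    · rintro ⟨h1, h2⟩ i hi
      rcases Nat.lt_succ_iff_lt_or_eq.1 hi with h | h
      · rw [hti i h.ne]
        exact h1 i h
      · subst h
        rw [htk]
        exact h2
    · intro h
      refine ⟨fun i hi => ?_, ?_⟩
      · have := h i (by omega)
        rw [hti i hi.ne] at this
        exact this
      · have := h k (by omega)
        rw [htk] at this
        exact this
  have hunif : ∀ (i : ℕ) (s : Set (Fin (n i + 1))),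
      ((PMF.uniformOfFintype (Fin (n i + 1))).toMeasure s).toReal = (s.ncard : ℝ) / (n i + 1) := by
    intro i s
    rw [PMF.toMeasure_uniformOfFintype_apply _ (Set.toFinite s).measurableSet]
    rw [ENNReal.toReal_div]
    simp only [ENNReal.toReal_natCast, Fintype.card_fin, Nat.cast_add, Nat.cast_one]
    congr 2
    rw [Set.ncard_eq_toFinset_card']
    simp
  rw [hset, measureReal_def, P, Measure.infinitePi_pi _ (fun i _ => (Set.toFinite _).measurableSet), ENNReal.toReal_prod,
    Finset.prod_range_succ, Finset.prod_range_succ]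
  simp only [hunif]
  rw [htk, Set.ncard_coe_finset]
  have h1 : ∏ i ∈ Finset.range k, ((t i).ncard : ℝ) / (n i + 1) = ∏ i ∈ Finset.range k, (1 : ℝ) / (n i + 1) := by
    refine Finset.prod_congr rfl fun i hi => ?_
    rw [hti i (Finset.mem_range.1 hi).ne, Set.ncard_singleton, Nat.cast_one]
  rw [h1]
  ring

lemma prob_digits' (k : ℕ) (ω₀ : ∀ k, Fin (n k + 1)) :
    (P n).real {ω | ∀ i < k, ω i = ω₀ i} = ∏ i ∈ Finset.range k, (1 : ℝ) / (n i + 1) := by
  have h := prob_digits n k ω₀ Finset.univ
  simp only [Finset.mem_univ, and_true, Finset.card_univ, Fintype.card_fin] at h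
  rw [h, Finset.prod_range_succ]
  push_cast
  have : ((n k : ℝ) + 1) ≠ 0 := by positivity
  field_simp

end

/-- **The measure.** -/
theorem cantor (n : ℕ → ℕ) (φ : ∀ k, ℝ → Fin (n k + 1) → ℝ) (u v : ℝ) (δ ε : ℕ → ℝ) (T : ℕ → Set ℝ)
    (hT : ∀ k, MeasurableSet (T k)) (hδ0 : δ 0 = v - u) (hδ : ∀ k, 0 < δ k) (hε : ∀ k, 0 < ε k)
    (hφ : ∀ k x, u ≤ x → x + δ k ≤ v → ∀ i, x ≤ φ k x i ∧ φ k x i + δ (k + 1) ≤ x + δ k ∧
      Set.Icc (φ k x i) (φ k x i + δ (k + 1)) ⊆ T k)
    (hsep : ∀ k x, u ≤ x → x + δ k ≤ v → ∀ i j, i ≠ j → ε k ≤ |φ k x i - φ k x j|)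
    (h2 : ∀ k, δ (k + 1) ≤ ε k / 2) :
    ∃ ν : Measure ℝ, IsProbabilityMeasure ν ∧ (∀ᵐ x ∂ν, x ∈ Set.Icc u v ∧ ∀ k, x ∈ T k) ∧
      ∀ k x r, 0 ≤ r → (∀ m < k, r < ε m / 2) →
        ν.real (Set.Icc x (x + r)) ≤ ∏ i ∈ Finset.range k, (1 : ℝ) / (n i + 1) ∧
        ν.real (Set.Icc x (x + r)) ≤ (∏ i ∈ Finset.range (k + 1), (1 : ℝ) / (n i + 1)) * ((r + δ (k + 1)) / ε k + 1) := by
  classical
  set p := pos n φ u with hp
  have hpos : ∀ k ω, u ≤ p k ω ∧ p k ω + δ k ≤ v := by
    intro k ω
    induction k with
    | zero =>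
      have : p 0 ω = u := rfl
      rw [this, hδ0]
      constructor <;> linarith
    | succ k ih =>
      obtain ⟨h3, h4, -⟩ := hφ k (p k ω) ih.1 ih.2 (ω k)
      have : p (k + 1) ω = φ k (p k ω) (ω k) := rfl
      rw [this]
      constructor <;> linarith [ih.1, ih.2]
  have hstep : ∀ k ω, p k ω ≤ p (k + 1) ω ∧ p (k + 1) ω + δ (k + 1) ≤ p k ω + δ k ∧
      Set.Icc (p (k + 1) ω) (p (k + 1) ω + δ (k + 1)) ⊆ T k := by
    intro k ω
    exact hφ k (p k ω) (hpos k ω).1 (hpos k ω).2 (ω k)
  have hmono : ∀ ω, Monotone fun k => p k ω := fun ω => monotone_nat_of_le_succ fun k => (hstep k ω).1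
  have hanti : ∀ ω, Antitone fun k => p k ω + δ k := fun ω => antitone_nat_of_succ_le fun k => (hstep k ω).2.1
  have hbdd : ∀ ω, BddAbove (Set.range fun k => p k ω) := by
    intro ω
    refine ⟨v, ?_⟩
    rintro _ ⟨k, rfl⟩
    have := hpos k ω
    have := hδ k
    simp only
    linarith
  set X : (∀ k, Fin (n k + 1)) → ℝ := fun ω => ⨆ k, p k ω with hX
  have hXl : ∀ k ω, p k ω ≤ X ω := fun k ω => le_ciSup (hbdd ω) k
  have hXu : ∀ k ω, X ω ≤ p k ω + δ k := by
    intro k ω
    refine ciSup_le fun l => ?_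
    rcases le_total k l with h | h
    · have := hanti ω h
      have := hδ l
      simp only at *
      linarith
    · have := hmono ω h
      have := hδ k
      simp only at *
      linarith
  have hXm : Measurable X := by
    refine measurable_of_tendsto_metrizable (fun k => (pos_meas n φ u k).1) ?_
    rw [tendsto_pi_nhds]
    intro ω
    exact tendsto_atTop_ciSup (hmono ω) (hbdd ω)
  have hXT : ∀ ω k, X ω ∈ T k := fun ω k => (hstep k ω).2.2 ⟨hXl (k + 1) ω, hXu (k + 1) ω⟩
  refine ⟨(P n).map X, Measure.isProbabilityMeasure_map hXm.aemeasurable, ?_, ?_⟩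
  · rw [ae_map_iff hXm.aemeasurable]
    · refine Eventually.of_forall fun ω => ⟨⟨?_, ?_⟩, hXT ω⟩
      · exact (hpos 0 ω).1.trans (hXl 0 ω)
      · exact (hXu 0 ω).trans (hpos 0 ω).2
    · have h3 : {x | x ∈ Set.Icc u v ∧ ∀ k, x ∈ T k} = Set.Icc u v ∩ ⋂ k, T k := by
        ext x
        simp only [Set.mem_inter_iff, Set.mem_iInter, Set.mem_ofPred_eq]
      rw [h3]
      exact measurableSet_Icc.inter (MeasurableSet.iInter hT)
  · intro k x r hr hrk
    have hmap : ((P n).map X).real (Set.Icc x (x + r)) = (P n).real {ω | X ω ∈ Set.Icc x (x + r)} := by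
      rw [measureReal_def, Measure.map_apply hXm measurableSet_Icc]
      rfl
    rw [hmap]
    by_cases hne : ({ω | X ω ∈ Set.Icc x (x + r)}).Nonempty
    · obtain ⟨ω₀, hω₀⟩ := hne
      have hagree : ∀ ω, X ω ∈ Set.Icc x (x + r) → ∀ m ≤ k, ∀ i < m, ω i = ω₀ i := by
        intro ω hω m
        have hpp : ∀ m, (∀ i < m, ω i = ω₀ i) → p m ω = p m ω₀ := by
          intro m
          induction m with
          | zero => intro _; rfl
          | succ m ih =>
            intro h
            have h3 := ih fun i hi => h i (by omega)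
            change φ m (p m ω) (ω m) = φ m (p m ω₀) (ω₀ m)
            rw [h3, h m (by omega)]
        induction m with
        | zero =>
          intro _ i hi
          omega
        | succ m ih =>
          intro hm i hi
          have h3 := ih (by omega)
          rcases Nat.lt_succ_iff_lt_or_eq.1 hi with h | h
          · exact h3 i h
          · subst h
            by_contra hne
            have h4 := hpp i h3
            have h5 := hsep i (p i ω₀) (hpos i ω₀).1 (hpos i ω₀).2 (ω i) (ω₀ i) hne
            have h6 : p (i + 1) ω = φ i (p i ω₀) (ω i) := by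
              change φ i (p i ω) (ω i) = _
              rw [h4]
            have h7 : p (i + 1) ω₀ = φ i (p i ω₀) (ω₀ i) := rfl
            rw [← h6, ← h7] at h5
            have h8 := hXl (i + 1) ω
            have h9 := hXu (i + 1) ω
            have h10 := hXl (i + 1) ω₀
            have h11 := hXu (i + 1) ω₀
            have h12 := h2 i
            have h13 := hrk i (by omega)
            obtain ⟨h14, h15⟩ := hω
            obtain ⟨h16, h17⟩ := hω₀
            rcases abs_cases (p (i + 1) ω - p (i + 1) ω₀) with ⟨h18, _⟩ | ⟨h18, _⟩ <;> linarith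
      constructor
      · rw [← prob_digits' n k ω₀]
        exact measureReal_mono (fun ω hω => hagree ω hω k le_rfl)
      · set A : Finset (Fin (n k + 1)) := Finset.univ.filter fun i =>
          φ k (p k ω₀) i ≤ x + r ∧ x - δ (k + 1) ≤ φ k (p k ω₀) i with hA
        have hpk : ∀ ω, X ω ∈ Set.Icc x (x + r) → p k ω = p k ω₀ := by
          intro ω hω
          have h3 := hagree ω hω
          have : ∀ m ≤ k, p m ω = p m ω₀ := by
            intro m
            induction m with
            | zero => intro _; rfl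
            | succ m ih =>
              intro hm
              change φ m (p m ω) (ω m) = φ m (p m ω₀) (ω₀ m)
              rw [ih (by omega), h3 (m + 1) hm m (by omega)]
          exact this k le_rfl
        have hsub : {ω | X ω ∈ Set.Icc x (x + r)} ⊆ {ω | (∀ i < k, ω i = ω₀ i) ∧ ω k ∈ A} := by
          intro ω hω
          refine ⟨hagree ω hω k le_rfl, ?_⟩
          rw [hA, Finset.mem_filter]
          have h3 : p (k + 1) ω = φ k (p k ω₀) (ω k) := by
            change φ k (p k ω) (ω k) = _
            rw [hpk ω hω]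
          rw [← h3]
          have h8 := hXl (k + 1) ω
          have h9 := hXu (k + 1) ω
          obtain ⟨h14, h15⟩ := hω
          exact ⟨Finset.mem_univ _, by linarith, by linarith⟩
        have hcard : (A.card : ℝ) ≤ (r + δ (k + 1)) / ε k + 1 := by
          have hinj : Set.InjOn (fun i => φ k (p k ω₀) i) (A : Set (Fin (n k + 1))) := by
            intro i _ j _ hij
            by_contra hne
            have h3 := hsep k (p k ω₀) (hpos k ω₀).1 (hpos k ω₀).2 i j hne
            simp only at hij
            rw [hij, sub_self, abs_zero] at h3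
            exact absurd (hε k) (not_lt.2 h3)
          rw [← Finset.card_image_of_injOn hinj]
          refine sep_card (x := x - δ (k + 1)) (hε k) (by linarith [hδ (k + 1)]) ?_ ?_
          · intro z hz
            rw [Finset.mem_image] at hz
            obtain ⟨i, hi, rfl⟩ := hz
            rw [hA, Finset.mem_filter] at hi
            exact ⟨hi.2.2, by linarith [hi.2.1]⟩
          · intro z hz w hw hzw
            rw [Finset.mem_image] at hz hw
            obtain ⟨i, hi, rfl⟩ := hz
            obtain ⟨j, hj, rfl⟩ := hw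
            exact hsep k (p k ω₀) (hpos k ω₀).1 (hpos k ω₀).2 i j (fun h => hzw (by rw [h]))
        calc (P n).real {ω | X ω ∈ Set.Icc x (x + r)} ≤ (P n).real {ω | (∀ i < k, ω i = ω₀ i) ∧ ω k ∈ A} :=
              measureReal_mono hsub
          _ = (∏ i ∈ Finset.range (k + 1), (1 : ℝ) / (n i + 1)) * A.card := prob_digits n k ω₀ A
          _ ≤ _ := mul_le_mul_of_nonneg_left hcard (Finset.prod_nonneg fun i _ => by positivity)
    · rw [Set.not_nonempty_iff_eq_empty] at hne
      rw [hne, measureReal_empty]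
      have h3 : ∀ k, 0 ≤ ∏ i ∈ Finset.range k, (1 : ℝ) / (n i + 1) := fun k => Finset.prod_nonneg fun i _ => by positivity
      refine ⟨h3 k, mul_nonneg (h3 _) ?_⟩
      have := hε k
      have := hδ (k + 1)
      positivity

end Pool.Agent.HP25.NC
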