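import Pool.Agent.HP25.NC.A

/-!
# Measures with a given modulus of continuity on limsup sets with exponentially small radii

If for infinitely many `Q` every interval of length `δ` contains at least `c₀ δ Q ^ d` points at mutual
distances at least `c₁ Q ^ (-d)` with `[z, z + exp (- κ k Q)] ⊆ T k`, then for every `h → ∞` there is a
probability measure on `⋂ T k` for which intervals of length `exp (- j)` have measure at most `h j / j ^ d`.
-/

set_option autoImplicit false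

namespace Pool.Agent.HP25.NC

open MeasureTheory Filter Topology

/-- the choice of one `Q` -/
lemma choice (d : ℕ) (hd : 1 ≤ d) (κ c₁ B : ℝ) (hκ : 0 < κ) (hc₁ : 0 < c₁) (h : ℕ → ℝ) (hh : Tendsto h atTop atTop)
    (k : ℕ) : ∃ Q₀ : ℕ, ∀ Q ≥ Q₀, k + 1 ≤ Q ∧ Real.exp (-(κ * Q)) ≤ c₁ / (Q : ℝ) ^ d / 2 ∧
      ∀ j : ℕ, Real.exp (-(j : ℝ)) < c₁ / (Q : ℝ) ^ d / 2 → B ≤ h j := by
  obtain ⟨j₁, hj₁⟩ := eventually_atTop.1 (hh.eventually_ge_atTop B)
  have h1 : Tendsto (fun Q : ℕ => (κ * Q) ^ d * Real.exp (-(κ * Q))) atTop (𝓝 0) :=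
    (Real.tendsto_pow_mul_exp_neg_atTop_nhds_zero d).comp (tendsto_natCast_atTop_atTop.const_mul_atTop hκ)
  have h2 : ∀ᶠ Q : ℕ in atTop, (κ * Q) ^ d * Real.exp (-(κ * Q)) ≤ κ ^ d * (c₁ / 2) :=
    h1.eventually_le_const (by positivity)
  have h3 : Tendsto (fun Q : ℕ => c₁ / (Q : ℝ) ^ d / 2) atTop (𝓝 0) := by
    have h4 : Tendsto (fun Q : ℕ => (Q : ℝ) ^ d) atTop atTop :=
      (tendsto_pow_atTop (by omega)).comp tendsto_natCast_atTop_atTop
    have h5 := (h4.const_div_atTop c₁).div_const 2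
    simpa using h5
  have h4 : ∀ᶠ Q : ℕ in atTop, c₁ / (Q : ℝ) ^ d / 2 ≤ Real.exp (-(j₁ : ℝ)) :=
    h3.eventually_le_const (Real.exp_pos _)
  obtain ⟨Q₀, hQ₀⟩ := eventually_atTop.1 ((h2.and h4).and (eventually_ge_atTop (k + 1)))
  refine ⟨Q₀, fun Q hQ => ?_⟩
  obtain ⟨⟨h5, h6⟩, h7⟩ := hQ₀ Q hQ
  have hQ0 : (0 : ℝ) < Q := by exact_mod_cast (by omega : 0 < Q)
  refine ⟨h7, ?_, fun j hj => hj₁ j ?_⟩
  · rw [mul_pow, mul_assoc] at h5
    have h8 := le_of_mul_le_mul_left h5 (by positivity)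
    rw [div_right_comm, le_div_iff₀ (by positivity)]
    linarith
  · have h8 := hj.trans_le h6
    rw [Real.exp_lt_exp] at h8
    have : (j₁ : ℝ) < j := by linarith
    exact_mod_cast this.le

theorem frostman (d : ℕ) (hd : 1 ≤ d) (u v : ℝ) (huv : u < v) (T : ℕ → Set ℝ) (hT : ∀ k, MeasurableSet (T k))
    (κ : ℕ → ℝ) (hκ : ∀ k, 0 < κ k) (c₀ c₁ : ℝ) (hc₀ : 0 < c₀) (hc₁ : 0 < c₁)
    (hyp : ∀ k, ∀ δ > 0, ∀ Q₀ : ℕ, ∃ Q ≥ Q₀, ∀ x, u ≤ x → x + δ ≤ v → ∃ S : Finset ℝ,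
      c₀ * δ * (Q : ℝ) ^ d ≤ S.card ∧
      (∀ z ∈ S, x ≤ z ∧ z + Real.exp (-(κ k * Q)) ≤ x + δ ∧ Set.Icc z (z + Real.exp (-(κ k * Q))) ⊆ T k) ∧
      ∀ z ∈ S, ∀ w ∈ S, z ≠ w → c₁ / (Q : ℝ) ^ d ≤ |z - w|)
    (h : ℕ → ℝ) (hh : Tendsto h atTop atTop) :
    ∃ ν : Measure ℝ, IsProbabilityMeasure ν ∧ (∀ᵐ x ∂ν, x ∈ Set.Icc u v ∧ ∀ k, x ∈ T k) ∧
      ∀ᶠ j : ℕ in atTop, ∀ x, ν.real (Set.Icc x (x + Real.exp (-(j : ℝ)))) ≤ h j / (j : ℝ) ^ d := by
  classical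
  -- the choice of `Q` for the level `k`, the length `δ` and the mass `μ`
  have hQ : ∀ (k : ℕ) (δ μ : ℝ), 0 < δ → ∃ Q : ℕ, k + 1 ≤ Q ∧ Real.exp (-(κ k * Q)) ≤ c₁ / (Q : ℝ) ^ d / 2 ∧
      (∀ j : ℕ, Real.exp (-(j : ℝ)) < c₁ / (Q : ℝ) ^ d / 2 → μ * (2 * κ k) ^ d / (c₀ * δ) ≤ h j) ∧
      ∀ x, u ≤ x → x + δ ≤ v → ∃ S : Finset ℝ, c₀ * δ * (Q : ℝ) ^ d ≤ S.card ∧
      (∀ z ∈ S, x ≤ z ∧ z + Real.exp (-(κ k * Q)) ≤ x + δ ∧ Set.Icc z (z + Real.exp (-(κ k * Q))) ⊆ T k) ∧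
      ∀ z ∈ S, ∀ w ∈ S, z ≠ w → c₁ / (Q : ℝ) ^ d ≤ |z - w| := by
    intro k δ μ hδ
    obtain ⟨Q₀, hQ₀⟩ := choice d hd (κ k) c₁ (μ * (2 * κ k) ^ d / (c₀ * δ)) (hκ k) hc₁ h hh k
    obtain ⟨Q, hQ, hS⟩ := hyp k δ hδ Q₀
    obtain ⟨h1, h2, h3⟩ := hQ₀ Q hQ
    exact ⟨Q, h1, h2, h3, hS⟩
  choose! q hq1 hq2 hq3 hq4 using hQ
  -- the sequences
  set st : ℕ → ℝ × ℝ := fun k => Nat.rec (v - u, 1) (fun k s =>
    (Real.exp (-(κ k * (q k s.1 s.2 : ℕ))), s.2 / (⌈c₀ * s.1 * (q k s.1 s.2 : ℝ) ^ d⌉₊ : ℕ))) k with hst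
  set δ : ℕ → ℝ := fun k => (st k).1 with hδdef
  set μ : ℕ → ℝ := fun k => (st k).2 with hμdef
  set Q : ℕ → ℕ := fun k => q k (δ k) (μ k) with hQdef
  set N : ℕ → ℕ := fun k => ⌈c₀ * δ k * (Q k : ℝ) ^ d⌉₊ with hNdef
  set ε : ℕ → ℝ := fun k => c₁ / (Q k : ℝ) ^ d with hεdef
  have hδ0 : δ 0 = v - u := rfl
  have hδs : ∀ k, δ (k + 1) = Real.exp (-(κ k * Q k)) := fun k => rfl
  have hμ0 : μ 0 = 1 := rfl
  have hμs : ∀ k, μ (k + 1) = μ k / (N k : ℕ) := fun k => rfl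
  have hδpos : ∀ k, 0 < δ k := by
    intro k
    rcases k with _ | k
    · rw [hδ0]
      linarith
    · rw [hδs]
      exact Real.exp_pos _
  have hQ1 : ∀ k, k + 1 ≤ Q k := fun k => hq1 k (δ k) (μ k) (hδpos k)
  have hQpos : ∀ k, (0 : ℝ) < Q k := fun k => by
    have := hQ1 k
    exact_mod_cast (by omega : 0 < Q k)
  have hQ2 : ∀ k, Real.exp (-(κ k * Q k)) ≤ ε k / 2 := fun k => hq2 k (δ k) (μ k) (hδpos k)
  have hQ3 : ∀ k, ∀ j : ℕ, Real.exp (-(j : ℝ)) < ε k / 2 → μ k * (2 * κ k) ^ d / (c₀ * δ k) ≤ h j :=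
    fun k => hq3 k (δ k) (μ k) (hδpos k)
  have hQ4 := fun k => hq4 k (δ k) (μ k) (hδpos k)
  have hNge : ∀ k, c₀ * δ k * (Q k : ℝ) ^ d ≤ N k := fun k => Nat.le_ceil _
  have hNarg : ∀ k, 0 < c₀ * δ k * (Q k : ℝ) ^ d := fun k => by
    have := hδpos k
    have := hQpos k
    positivity
  have hN1 : ∀ k, 1 ≤ N k := fun k => Nat.one_le_iff_ne_zero.2 (Nat.ceil_pos.2 (hNarg k)).ne'
  set n : ℕ → ℕ := fun k => N k - 1 with hndef
  have hn1 : ∀ k, n k + 1 = N k := fun k => Nat.sub_add_cancel (hN1 k)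
  have hεpos : ∀ k, 0 < ε k := fun k => by
    have := hQpos k
    positivity
  -- the children
  have hchild : ∀ k x, u ≤ x → x + δ k ≤ v → ∃ f : Fin (n k + 1) → ℝ,
      (∀ i, x ≤ f i ∧ f i + δ (k + 1) ≤ x + δ k ∧ Set.Icc (f i) (f i + δ (k + 1)) ⊆ T k) ∧
      ∀ i j, i ≠ j → ε k ≤ |f i - f j| := by
    intro k x hx hxv
    obtain ⟨S, hS1, hS2, hS3⟩ := hQ4 k x hx hxv
    have hcard : n k + 1 ≤ S.card := by
      rw [hn1]
      exact Nat.ceil_le.2 hS1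
    obtain ⟨t, htS, htc⟩ := Finset.exists_subset_card_eq hcard
    refine ⟨fun i => t.orderEmbOfFin htc i, fun i => ?_, fun i j hij => ?_⟩
    · exact hS2 _ (htS (Finset.orderEmbOfFin_mem t htc i))
    · exact hS3 _ (htS (Finset.orderEmbOfFin_mem t htc i)) _ (htS (Finset.orderEmbOfFin_mem t htc j))
        (fun hc => hij ((t.orderEmbOfFin htc).injective hc))
  choose! φ hφ1 hφ2 using hchild
  obtain ⟨ν, hν1, hν2, hν3⟩ := cantor n φ u v δ ε T hT hδ0 hδpos hεpos (fun k x hx hxv i => hφ1 k x hx hxv i)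
    (fun k x hx hxv i j hij => hφ2 k x hx hxv i j hij) (fun k => by rw [hδs]; exact hQ2 k)
  refine ⟨ν, hν1, hν2, ?_⟩
  have hμpos : ∀ k, 0 < μ k := by
    intro k
    induction k with
    | zero => rw [hμ0]; exact one_pos
    | succ k ih =>
      rw [hμs]
      have : (0 : ℝ) < N k := by exact_mod_cast hN1 k
      positivity
  have hμle : ∀ k, μ k ≤ 1 := by
    intro k
    induction k with
    | zero => rw [hμ0]
    | succ k ih =>
      rw [hμs, div_le_one (by exact_mod_cast hN1 k)]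
      exact ih.trans (by exact_mod_cast hN1 k)
  have hprod : ∀ k, ∏ i ∈ Finset.range k, (1 : ℝ) / (n i + 1) = μ k := by
    intro k
    induction k with
    | zero => rw [Finset.prod_range_zero, hμ0]
    | succ k ih =>
      rw [Finset.prod_range_succ, ih, hμs]
      have : ((n k : ℝ) + 1) = N k := by exact_mod_cast hn1 k
      rw [this]
      ring
  have hμN : ∀ k, μ (k + 1) ≤ μ k / (c₀ * δ k * (Q k : ℝ) ^ d) := by
    intro k
    rw [hμs]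
    exact div_le_div_of_nonneg_left (hμpos k).le (hNarg k) (hNge k)
  -- large `j`
  have hexp : Tendsto (fun j : ℕ => Real.exp (-(j : ℝ))) atTop (𝓝 0) :=
    (Real.tendsto_exp_neg_atTop_nhds_zero).comp tendsto_natCast_atTop_atTop
  have hj1 : ∀ᶠ j : ℕ in atTop, Real.exp (-(j : ℝ)) < ε 0 / 2 := hexp.eventually_lt_const (by linarith [hεpos 0])
  have hj2 : ∀ᶠ j : ℕ in atTop, 1 ≤ h j := hh.eventually_ge_atTop 1
  have hj3 : ∀ᶠ j : ℕ in atTop, 4 / (c₀ * c₁) * ((j : ℝ) ^ d * Real.exp (-((j : ℝ) / 2))) ≤ 1 := by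
    have h1 : Tendsto (fun j : ℕ => ((j : ℝ) / 2) ^ d * Real.exp (-((j : ℝ) / 2))) atTop (𝓝 0) :=
      (Real.tendsto_pow_mul_exp_neg_atTop_nhds_zero d).comp (tendsto_natCast_atTop_atTop.atTop_div_const (by norm_num))
    have h2 := h1.const_mul (4 / (c₀ * c₁) * 2 ^ d)
    rw [mul_zero] at h2
    filter_upwards [h2.eventually_le_const one_pos] with j hj
    refine le_trans (le_of_eq ?_) hj
    rw [div_pow]
    field_simp
  filter_upwards [hj1, hj2, hj3, eventually_ge_atTop 1] with j hj1 hj2 hj3 hj4 x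
  have hj0 : (0 : ℝ) < j := by exact_mod_cast hj4
  -- the level
  have hex : ∃ k, ε k / 2 ≤ Real.exp (-(j : ℝ)) := by
    have h1 : Tendsto (fun k : ℕ => ε k / 2) atTop (𝓝 0) := by
      have h2 : Tendsto (fun k : ℕ => (Q k : ℝ) ^ d) atTop atTop := by
        refine (tendsto_pow_atTop (by omega)).comp ?_
        refine tendsto_atTop_mono (fun k => ?_) tendsto_natCast_atTop_atTop
        have := hQ1 k
        exact_mod_cast (by omega : k ≤ Q k)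
      have h3 := (h2.const_div_atTop c₁).div_const 2
      simpa using h3
    obtain ⟨k, hk⟩ := (h1.eventually_le_const (Real.exp_pos (-(j : ℝ)))).exists
    exact ⟨k, hk⟩
  have hk1 := Nat.find_spec hex
  have hk2 := fun m hm => Nat.find_min hex (m := m) hm
  set k := Nat.find hex with hk
  obtain ⟨h1, h2⟩ := hν3 k x (Real.exp (-(j : ℝ))) (Real.exp_pos _).le (fun m hm => not_le.1 (hk2 m hm))
  rcases Nat.eq_zero_or_pos k with hk0 | hkpos
  · rw [hk0] at hk1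
    linarith
  obtain ⟨l, hl⟩ : ∃ l, k = l + 1 := ⟨k - 1, by omega⟩
  rw [hl] at h1 h2 hk1 hk2
  rw [hprod] at h1 h2
  have hlt : Real.exp (-(j : ℝ)) < ε l / 2 := not_le.1 (hk2 l (by omega))
  rcases le_or_gt (j : ℝ) (2 * (κ l * Q l)) with hcase | hcase
  · -- `j` is small
    have h3 := hQ3 l j hlt
    rw [le_div_iff₀ (by positivity)]
    calc ν.real (Set.Icc x (x + Real.exp (-(j : ℝ)))) * (j : ℝ) ^ d
        ≤ μ (l + 1) * (2 * (κ l * Q l)) ^ d := by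
          refine mul_le_mul h1 (pow_le_pow_left₀ hj0.le hcase d) (by positivity) (hμpos (l + 1)).le
      _ ≤ μ l / (c₀ * δ l * (Q l : ℝ) ^ d) * (2 * (κ l * Q l)) ^ d :=
          mul_le_mul_of_nonneg_right (hμN l) (by
            have := hκ l
            have := hQpos l
            positivity)
      _ = μ l * (2 * κ l) ^ d / (c₀ * δ l) := by
          have := (hQpos l).ne'
          have := (hδpos l).ne'
          rw [← mul_assoc, mul_pow (2 * κ l) (Q l : ℝ) d]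
          field_simp
      _ ≤ h j := h3
  · -- `j` is large
    have h3 : Real.exp (-(j : ℝ)) / δ (l + 1) ≤ Real.exp (-((j : ℝ) / 2)) := by
      rw [hδs, ← Real.exp_sub]
      exact Real.exp_le_exp.2 (by linarith)
    have h4 : (Real.exp (-(j : ℝ)) + δ (l + 1 + 1)) / ε (l + 1) + 1 ≤ 4 * (Real.exp (-(j : ℝ)) / ε (l + 1)) := by
      have h5 : δ (l + 1 + 1) ≤ ε (l + 1) / 2 := by rw [hδs]; exact hQ2 (l + 1)
      have h6 : 1 ≤ 2 * (Real.exp (-(j : ℝ)) / ε (l + 1)) := by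
        rw [mul_div_assoc', le_div_iff₀ (hεpos _)]
        linarith
      have h7 : (Real.exp (-(j : ℝ)) + δ (l + 1 + 1)) / ε (l + 1) ≤ 2 * (Real.exp (-(j : ℝ)) / ε (l + 1)) := by
        rw [mul_div_assoc', div_le_div_iff_of_pos_right (hεpos _)]
        linarith
      linarith
    have h5 : μ (l + 1 + 1) / ε (l + 1) ≤ 1 / (c₀ * c₁) / δ (l + 1) := by
      calc μ (l + 1 + 1) / ε (l + 1) ≤ μ (l + 1) / (c₀ * δ (l + 1) * (Q (l + 1) : ℝ) ^ d) / ε (l + 1) :=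
            div_le_div_of_nonneg_right (hμN _) (hεpos _).le
        _ = μ (l + 1) / (c₀ * c₁) / δ (l + 1) := by
            have := (hQpos (l + 1)).ne'
            have := (hδpos (l + 1)).ne'
            simp only [hεdef]
            field_simp
        _ ≤ 1 / (c₀ * c₁) / δ (l + 1) := by
            have := hδpos (l + 1)
            have := hμle (l + 1)
            gcongr
    calc ν.real (Set.Icc x (x + Real.exp (-(j : ℝ))))
        ≤ μ (l + 1 + 1) * ((Real.exp (-(j : ℝ)) + δ (l + 1 + 1)) / ε (l + 1) + 1) := h2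
      _ ≤ μ (l + 1 + 1) * (4 * (Real.exp (-(j : ℝ)) / ε (l + 1))) := mul_le_mul_of_nonneg_left h4 (hμpos (l + 1 + 1)).le
      _ = 4 * (μ (l + 1 + 1) / ε (l + 1)) * Real.exp (-(j : ℝ)) := by ring
      _ ≤ 4 * (1 / (c₀ * c₁) / δ (l + 1)) * Real.exp (-(j : ℝ)) := by
          have := (Real.exp_pos (-(j : ℝ))).le
          gcongr
      _ = 4 / (c₀ * c₁) * (Real.exp (-(j : ℝ)) / δ (l + 1)) := by ring
      _ ≤ 4 / (c₀ * c₁) * Real.exp (-((j : ℝ) / 2)) := by gcongr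
      _ ≤ 1 / (j : ℝ) ^ d := by
          rw [le_div_iff₀ (by positivity)]
          linarith
      _ ≤ h j / (j : ℝ) ^ d := div_le_div_of_nonneg_right hj2 (by positivity)

end Pool.Agent.HP25.NC
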