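import Pool.Agent.HP25.NC.B
import Pool.Agent.Results.MP_606be1_nt.DilatedNearCoincidences

/-!
# Near misses: almost every dilation and almost every base for measures with a logarithmic modulus
-/

set_option autoImplicit false

namespace Pool.Agent.HP25.NC

open MeasureTheory Filter Topology
open scoped ENNReal
open Pool.Agent.Results.MP_606be1_nt.DilatedNearCoincidences (pairs nearMisses asym near_le lin_bound pow_gap)

/-- the largest measure of an interval of length `exp (- k)` -/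
noncomputable def modulus (ν : Measure ℝ) (k : ℕ) : ℝ≥0∞ := ⨆ x : ℝ, ν (Set.Icc x (x + Real.exp (-(k : ℝ))))

lemma le_modulus {ν : Measure ℝ} {k : ℕ} {x l : ℝ} (hl : l ≤ Real.exp (-(k : ℝ))) : ν (Set.Icc x (x + l)) ≤ modulus ν k := by
  have h1 : Set.Icc x (x + l) ⊆ Set.Icc x (x + Real.exp (-(k : ℝ))) := Set.Icc_subset_Icc_right (by linarith)
  exact (measure_mono h1).trans (le_iSup (fun x : ℝ => ν (Set.Icc x (x + Real.exp (-(k : ℝ))))) x)

lemma tsum_div (F : ℕ → ℝ≥0∞) {D : ℕ} (hD : 0 < D) : ∑' n, F (n / D) = D * ∑' k, F k := by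
  have : NeZero D := ⟨hD.ne'⟩
  rw [← (Nat.divModEquiv D).symm.tsum_eq, ENNReal.tsum_prod', ← ENNReal.tsum_mul_left]
  congr 1
  funext k
  have : ∀ r : Fin D, F ((Nat.divModEquiv D).symm (k, r) / D) = F k := by
    intro r
    congr 1
    simp only [Nat.divModEquiv, Equiv.coe_fn_symm_mk]
    rw [add_comm, Nat.add_mul_div_right _ _ hD, Nat.div_eq_of_lt r.2, zero_add]
  simp only [this]
  rw [tsum_fintype, Finset.sum_const, Finset.card_univ, Fintype.card_fin, nsmul_eq_mul]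

/-- Borel-Cantelli -/
lemma bc (e : ℕ) {ν : Measure ℝ} (hν : ∑' k : ℕ, ((k : ℝ≥0∞) + 1) ^ e * modulus ν k ≠ ∞) {D M : ℕ} (hD : 0 < D)
    (W : ℕ → Finset ℕ) (hW : ∀ n, (W n).card ≤ M * (n + 1) ^ e) (z : ℕ → ℕ → ℝ) (ρ : ℕ → ℝ)
    (hρ : ∀ᶠ n : ℕ in atTop, 2 * ρ n ≤ Real.exp (-((n / D : ℕ) : ℝ))) :
    ∀ᵐ x ∂ν, ∀ᶠ n in atTop, ∀ m ∈ W n, ρ n < |x - z n m| := by
  obtain ⟨n₀, hn₀⟩ := eventually_atTop.1 hρ
  set bad : ℕ → Set ℝ := fun n => if n₀ ≤ n then ⋃ m ∈ W n, Set.Icc (z n m - ρ n) (z n m - ρ n + 2 * ρ n) else ∅ with hbad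
  have h1 : ∀ n, ν (bad n) ≤ (M * D ^ e : ℕ) * ((((n / D : ℕ) : ℝ≥0∞) + 1) ^ e * modulus ν (n / D)) := by
    intro n
    simp only [hbad]
    split_ifs with hn
    · refine (measure_biUnion_finset_le _ _).trans ?_
      calc ∑ m ∈ W n, ν (Set.Icc (z n m - ρ n) (z n m - ρ n + 2 * ρ n)) ≤ ∑ _m ∈ W n, modulus ν (n / D) :=
            Finset.sum_le_sum fun m _ => le_modulus (hn₀ n hn)
        _ = ((W n).card : ℝ≥0∞) * modulus ν (n / D) := by rw [Finset.sum_const, nsmul_eq_mul]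
        _ ≤ ((M * (D * (n / D + 1)) ^ e : ℕ) : ℝ≥0∞) * modulus ν (n / D) := by
            refine mul_le_mul_left ?_ _
            have h2 : n + 1 ≤ D * (n / D + 1) := Nat.lt_mul_div_succ n hD
            exact_mod_cast (hW n).trans (Nat.mul_le_mul_left M (Nat.pow_le_pow_left h2 e))
        _ = _ := by
            push_cast
            rw [mul_pow]
            ring
    · simp
  have h2 : ∑' n, ν (bad n) ≠ ∞ := by
    refine ne_top_of_le_ne_top ?_ (ENNReal.tsum_le_tsum h1)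
    rw [ENNReal.tsum_mul_left]
    refine ENNReal.mul_ne_top (ENNReal.natCast_ne_top _) ?_
    rw [tsum_div (fun k => ((k : ℝ≥0∞) + 1) ^ e * modulus ν k) hD]
    exact ENNReal.mul_ne_top (ENNReal.natCast_ne_top _) hν
  filter_upwards [ae_eventually_notMem h2] with x hx
  filter_upwards [hx, eventually_ge_atTop n₀] with n hn hn2 m hm
  by_contra hcon
  rw [not_lt, abs_le] at hcon
  apply hn
  simp only [hbad]
  rw [if_pos hn2, Set.mem_iUnion₂]
  exact ⟨m, hm, by constructor <;> linarith [hcon.1, hcon.2]⟩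

/-- the radii -/
lemma rad {q A : ℝ} (hq : 1 < q) : ∃ D : ℕ, 0 < D ∧ ∀ᶠ n : ℕ in atTop, 2 * (A / q ^ n) ≤ Real.exp (-((n / D : ℕ) : ℝ)) := by
  have hl : 0 < Real.log q := Real.log_pos hq
  obtain ⟨D, hD⟩ := exists_nat_ge (2 / Real.log q)
  have hD0 : (0 : ℝ) < D := lt_of_lt_of_le (by positivity) hD
  refine ⟨D, by exact_mod_cast hD0, ?_⟩
  have h1 : Tendsto (fun n : ℕ => Real.exp ((Real.log q / 2) * n)) atTop atTop :=
    Real.tendsto_exp_atTop.comp (tendsto_natCast_atTop_atTop.const_mul_atTop (by positivity))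
  filter_upwards [h1.eventually_ge_atTop (2 * A)] with n hn
  have h2 : ((n / D : ℕ) : ℝ) ≤ (Real.log q / 2) * n := by
    refine (Nat.cast_div_le).trans ?_
    rw [div_le_iff₀ hD0]
    rw [div_le_iff₀ hl] at hD
    have : (0 : ℝ) ≤ n := Nat.cast_nonneg n
    nlinarith
  have h3 : q ^ n = Real.exp ((Real.log q / 2) * n) * Real.exp ((Real.log q / 2) * n) := by
    rw [← Real.exp_add, ← Real.rpow_natCast, Real.rpow_def_of_pos (by linarith)]
    congr 1
    ring
  calc 2 * (A / q ^ n) = 2 * A / q ^ n := by ring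
    _ ≤ Real.exp ((Real.log q / 2) * n) / q ^ n := div_le_div_of_nonneg_right hn (by positivity)
    _ = Real.exp (-((Real.log q / 2) * n)) := by
        rw [h3, Real.exp_neg]
        field_simp
    _ ≤ Real.exp (-((n / D : ℕ) : ℝ)) := Real.exp_le_exp.2 (by linarith)

/-- finitely many near misses -/
lemma fin_near {a b c : ℝ} (ha : 1 < a) (hb : 1 < b) (hc : 0 < c) {n₁ : ℕ} (h : ∀ n ≥ n₁, ∀ m, (n, m) ∉ nearMisses a b c) :
    (nearMisses a b c).Finite := by
  obtain ⟨K, hK⟩ := lin_bound (D := 2 * c + 2) hb ha.le (by linarith)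
  refine ((Finset.range n₁ ×ˢ Finset.range (K * (n₁ + 1) + 1)).finite_toSet).subset ?_
  rintro ⟨n, m⟩ hp
  have h1 : n < n₁ := by
    by_contra hcon
    exact h n (not_lt.1 hcon) m hp
  have h2 := hK n m (near_le ha hc hp).2
  have h3 : K * (n + 1) ≤ K * (n₁ + 1) := Nat.mul_le_mul_left K (by omega)
  rw [Finset.mem_coe, Finset.mem_product, Finset.mem_range, Finset.mem_range]
  exact ⟨h1, by simp only; omega⟩

/-- **Dilations.** -/
theorem dilations {a b : ℝ} (ha : 1 < a) (hb : 1 < b) {ν : Measure ℝ} (hν : ∑' k : ℕ, modulus ν k ≠ ∞) :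
    ∀ᵐ c ∂ν, 0 < c → (nearMisses a b c).Finite := by
  have ha0 : 0 < a := by linarith
  have hsa : 1 < √a := by
    rw [Real.lt_sqrt (by norm_num)]
    linarith
  have key : ∀ R : ℕ, ∀ᵐ c ∂ν, 1 / ((R : ℝ) + 1) ≤ c → c ≤ R + 1 → (nearMisses a b c).Finite := by
    intro R
    set r : ℝ := (R : ℝ) + 1 with hr
    have hr1 : 1 ≤ r := by
      have : (0 : ℝ) ≤ R := Nat.cast_nonneg R
      linarith
    have hr0 : 0 < r := by linarith
    set W : ℕ → Finset ℕ := fun n => Finset.Icc ⌈Real.logb b (a ^ n / (2 * r))⌉₊ ⌊Real.logb b ((2 * r + 2) * a ^ n)⌋₊ with hW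
    set M : ℕ := ⌈Real.logb b ((2 * r + 2) * (2 * r))⌉₊ + 1 with hM
    have hWc : ∀ n, (W n).card ≤ M * (n + 1) ^ 0 := by
      intro n
      rw [pow_zero, mul_one, hW, Nat.card_Icc]
      rw [Nat.sub_le_iff_le_add]
      have hα := Nat.le_ceil (Real.logb b (a ^ n / (2 * r)))
      have h3 : Real.logb b ((2 * r + 2) * a ^ n) = Real.logb b ((2 * r + 2) * (2 * r)) + Real.logb b (a ^ n / (2 * r)) := by
        rw [← Real.logb_mul (by positivity) (by positivity)]
        congr 1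
        field_simp
      have h4 := Nat.le_ceil (Real.logb b ((2 * r + 2) * (2 * r)))
      have h5 : 0 ≤ Real.logb b ((2 * r + 2) * a ^ n) := by
        refine Real.logb_nonneg hb ?_
        have : 1 ≤ a ^ n := one_le_pow₀ ha.le
        nlinarith
      have h6 := Nat.floor_le h5
      have h7 : ((⌊Real.logb b ((2 * r + 2) * a ^ n)⌋₊ : ℕ) : ℝ) + 1 ≤ ((M : ℕ) : ℝ) + ((⌈Real.logb b (a ^ n / (2 * r))⌉₊ : ℕ) : ℝ) := by
        rw [hM]
        push_cast
        linarith
      exact_mod_cast h7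
    obtain ⟨D, hD, hρ⟩ := rad (A := √r) hsa
    have h := bc 0 (ν := ν) (by simpa using hν) hD W hWc (fun n m => b ^ m / a ^ n) (fun n => √r / √a ^ n) hρ
    filter_upwards [h] with c hc hc1 hc2
    have hc0 : 0 < c := lt_of_lt_of_le (by positivity) hc1
    have hbig : ∀ᶠ n : ℕ in atTop, 4 * r ≤ a ^ n := (tendsto_pow_atTop_atTop_of_one_lt ha).eventually_ge_atTop _
    obtain ⟨n₁, hn₁⟩ := eventually_atTop.1 (hc.and hbig)
    refine fin_near ha hb hc0 (n₁ := n₁) fun n hn m hp => ?_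
    obtain ⟨h1, h2⟩ := hn₁ n hn
    obtain ⟨h3, h4⟩ := near_le ha hc0 hp
    simp only at h3 h4
    have han : 0 < a ^ n := by positivity
    have hs : √a ^ n * √a ^ n = a ^ n := by rw [← mul_pow, Real.mul_self_sqrt ha0.le]
    have hsc : √c * √c = c := Real.mul_self_sqrt hc0.le
    -- `m` is in the window
    have hlow : a ^ n / (2 * r) ≤ b ^ m := by
      have h5 : c * a ^ n - √c * √a ^ n ≤ b ^ m := by linarith [(abs_le.1 h3).2]
      have h6 : 4 ≤ c * a ^ n := by
        calc (4 : ℝ) = 1 / r * (4 * r) := by field_simp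
          _ ≤ c * a ^ n := mul_le_mul hc1 h2 (by positivity) hc0.le
      have h7 : (√c * √a ^ n) * (√c * √a ^ n) = c * a ^ n := by
        calc (√c * √a ^ n) * (√c * √a ^ n) = (√c * √c) * (√a ^ n * √a ^ n) := by ring
          _ = c * a ^ n := by rw [hsc, hs]
      have h8 : 0 ≤ √c * √a ^ n := by positivity
      have h9 : √c * √a ^ n ≤ c * a ^ n / 2 := by nlinarith
      have h10 : a ^ n / (2 * r) ≤ c * a ^ n / 2 := by
        calc a ^ n / (2 * r) = 1 / r * a ^ n / 2 := by field_simp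
          _ ≤ c * a ^ n / 2 := by gcongr
      linarith
    have hup : b ^ m ≤ (2 * r + 2) * a ^ n := by
      refine h4.trans ?_
      gcongr
    have hm : m ∈ W n := by
      rw [hW, Finset.mem_Icc]
      constructor
      · rw [Nat.ceil_le, Real.logb_le_iff_le_rpow hb (by positivity), Real.rpow_natCast]
        exact hlow
      · refine Nat.le_floor ?_
        rw [Real.le_logb_iff_rpow_le hb (by positivity), Real.rpow_natCast]
        exact hup
    have h5 := h1 m hm
    have h6 : |c - b ^ m / a ^ n| = |c * a ^ n - b ^ m| / a ^ n := by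
      rw [← abs_of_pos han, ← abs_div, abs_of_pos han]
      congr 1
      field_simp
    rw [h6, div_lt_div_iff₀ (by positivity) han] at h5
    have h7 : |c * a ^ n - b ^ m| * √a ^ n ≤ √r * a ^ n := by
      calc |c * a ^ n - b ^ m| * √a ^ n ≤ √c * √a ^ n * √a ^ n := mul_le_mul_of_nonneg_right h3 (by positivity)
        _ = √c * a ^ n := by rw [mul_assoc, hs]
        _ ≤ √r * a ^ n := by gcongr
    linarith
  filter_upwards [ae_all_iff.2 key] with c hc hc0
  obtain ⟨R, hR⟩ := exists_nat_ge (max c (1 / c))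
  refine hc R ?_ ?_
  · have h1 : 1 / c ≤ R := (le_max_right _ _).trans hR
    rw [div_le_iff₀ (by positivity)]
    rw [div_le_iff₀ hc0] at h1
    nlinarith
  · have := (le_max_left _ _).trans hR
    linarith

/-- **Bases.** -/
theorem bases {b c : ℝ} (hb : 1 < b) (hc : 0 < c) {ν : Measure ℝ} (hν : ∑' k : ℕ, ((k : ℝ≥0∞) + 1) * modulus ν k ≠ ∞) :
    ∀ᵐ a ∂ν, 1 < a → (nearMisses a b c).Finite := by
  have key : ∀ k : ℕ, ∀ᵐ a ∂ν, 1 + 1 / ((k : ℝ) + 1) ≤ a → a ≤ (k : ℝ) + 2 → (nearMisses a b c).Finite := by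
    intro k
    have hk0 : (0 : ℝ) ≤ k := Nat.cast_nonneg k
    set L : ℝ := 1 + 1 / ((k : ℝ) + 1) with hL
    have hL1 : 1 < L := by
      have : 0 < 1 / ((k : ℝ) + 1) := by positivity
      linarith
    have hsL : 1 < √L := by
      rw [Real.lt_sqrt (by norm_num)]
      linarith
    obtain ⟨K, hK⟩ := lin_bound (Y := (k : ℝ) + 2) (D := 2 * c + 2) hb (by linarith) (by linarith)
    obtain ⟨D, hD, hρ⟩ := rad (A := ((k : ℝ) + 2) * (1 + √c / c)) hsL
    have h := bc 1 (ν := ν) (by simpa using hν) hD (fun n => Finset.range (K * (n + 1) + 1)) (M := K + 1)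
      (fun n => by rw [Finset.card_range, pow_one]; nlinarith) (fun n m => (b ^ m / c) ^ (1 / (n : ℝ)))
      (fun n => (((k : ℝ) + 2) * (1 + √c / c)) / √L ^ n) hρ
    filter_upwards [h] with a hx haL hak
    have ha : 1 < a := by linarith
    have ha0 : 0 < a := by linarith
    obtain ⟨n₁, hn₁⟩ := eventually_atTop.1 (hx.and (eventually_ge_atTop 1))
    refine fin_near ha hb hc (n₁ := n₁) fun n hn m hp => ?_
    obtain ⟨h1, h2⟩ := hn₁ n hn
    obtain ⟨h3, h4⟩ := near_le ha hc hp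
    simp only at h3 h4
    have hm : m ∈ Finset.range (K * (n + 1) + 1) := by
      rw [Finset.mem_range, Nat.lt_succ_iff]
      refine hK n m (h4.trans ?_)
      refine mul_le_mul_of_nonneg_left ?_ (by positivity)
      exact pow_le_pow_left₀ ha0.le hak _
    have h5 := h1 m hm
    rw [div_lt_iff₀ (by positivity)] at h5
    have hsc : 0 ≤ √c / c := by positivity
    obtain ⟨l, rfl⟩ : ∃ l, n = l + 1 := ⟨n - 1, by omega⟩
    set y : ℝ := (b ^ m / c) ^ (1 / ((l + 1 : ℕ) : ℝ)) with hy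
    have hbm : 0 < b ^ m / c := by positivity
    have hy0 : 0 < y := Real.rpow_pos_of_pos hbm _
    have hyn : y ^ (l + 1) = b ^ m / c := by
      rw [hy, ← Real.rpow_natCast, ← Real.rpow_mul hbm.le, one_div_mul_cancel (by positivity), Real.rpow_one]
    have h6 := pow_gap ha0 hy0 l
    rw [hyn] at h6
    have h7 : |b ^ m / c - a ^ (l + 1)| = |c * a ^ (l + 1) - b ^ m| / c := by
      rw [← abs_of_pos hc, ← abs_div, abs_of_pos hc, ← abs_neg]
      congr 1
      field_simp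
      ring
    rw [h7] at h6
    have h8 : |y - a| * a ^ l ≤ √c * √a ^ (l + 1) / c := h6.trans (div_le_div_of_nonneg_right h3 hc.le)
    have h9 : √L ^ (l + 1) ≤ √a ^ (l + 1) := pow_le_pow_left₀ (Real.sqrt_nonneg _) (Real.sqrt_le_sqrt haL) _
    have h10 : √a ^ (l + 1) * √a ^ (l + 1) = a * a ^ l := by
      rw [← mul_pow, Real.mul_self_sqrt ha0.le, pow_succ]
      ring
    have han : 0 < a ^ l := by positivity
    have h11 : (|y - a| * √L ^ (l + 1)) * a ^ l ≤ (√c / c * a) * a ^ l := by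
      calc (|y - a| * √L ^ (l + 1)) * a ^ l = |y - a| * a ^ l * √L ^ (l + 1) := by ring
        _ ≤ √c * √a ^ (l + 1) / c * √a ^ (l + 1) := mul_le_mul h8 h9 (by positivity) (by positivity)
        _ = √c / c * (√a ^ (l + 1) * √a ^ (l + 1)) := by ring
        _ = (√c / c * a) * a ^ l := by rw [h10]; ring
    have h12 : |y - a| * √L ^ (l + 1) ≤ √c / c * a := le_of_mul_le_mul_right h11 han
    rw [abs_sub_comm] at h12
    have h13 : √c / c * a ≤ ((k : ℝ) + 2) * (1 + √c / c) := by nlinarith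
    linarith
  filter_upwards [ae_all_iff.2 key] with a ha h1
  obtain ⟨k, hk⟩ := exists_nat_ge (max a (1 / (a - 1)))
  have hk1 : a ≤ k := (le_max_left _ _).trans hk
  have hk2 : 1 / (a - 1) ≤ k := (le_max_right _ _).trans hk
  refine ha k ?_ (by linarith)
  have ha1 : 0 < a - 1 := by linarith
  have h3 : 1 / ((k : ℝ) + 1) ≤ a - 1 := by
    rw [div_le_iff₀ (by positivity)]
    rw [div_le_iff₀ ha1] at hk2
    nlinarith
  linarith

end Pool.Agent.HP25.NC
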