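import Pool.Agent.HP25.NC.B

/-!
# Well spaced points `m - n θ`, and measures carried by dilations with infinitely many very near coincidences
-/

set_option autoImplicit false

namespace Pool.Agent.HP25.NC

open MeasureTheory Filter Topology

/-- rational approximations with large denominators -/
lemma large_den {θ : ℝ} (hθ : Irrational θ) (Q₀ : ℕ) : ∃ r : ℚ, Q₀ ≤ r.den ∧ |θ - r| < 1 / (r.den : ℝ) ^ 2 := by
  by_contra hcon
  push Not at hcon
  have hinf := Real.infinite_rat_abs_sub_lt_one_div_den_sq_of_irrational hθ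
  apply hinf
  -- only finitely many rationals with bounded denominators
  have hfin : Set.Finite {r : ℚ | r.den < Q₀ ∧ |θ - r| < 1} := by
    set B : ℕ := ⌈|θ| + 1⌉₊ * Q₀ with hB
    refine Set.Finite.of_finite_image (f := fun r : ℚ => (r.num, r.den)) ?_ ?_
    · refine ((Finset.Icc (-(B : ℤ)) B ×ˢ Finset.range Q₀).finite_toSet).subset ?_
      rintro _ ⟨r, ⟨h1, h2⟩, rfl⟩
      rw [Finset.mem_coe, Finset.mem_product, Finset.mem_range, Finset.mem_Icc]
      have hd : (0 : ℝ) < r.den := by exact_mod_cast r.pos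
      have h3 : |(r : ℝ)| ≤ |θ| + 1 := by
        have : |(r : ℝ)| ≤ |θ| + |θ - r| := by
          have h4 := abs_sub_abs_le_abs_sub (r : ℝ) θ
          rw [abs_sub_comm] at h4
          linarith
        linarith
      have h4 : |(r.num : ℝ)| ≤ B := by
        have h5 : (r : ℝ) = r.num / r.den := by
          rw [Rat.cast_def]
        rw [h5, abs_div, abs_of_pos hd, div_le_iff₀ hd] at h3
        refine h3.trans ?_
        rw [hB]
        push_cast
        have h6 := Nat.le_ceil (|θ| + 1)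
        have h7 : (r.den : ℝ) ≤ Q₀ := by exact_mod_cast h1.le
        exact mul_le_mul h6 h7 hd.le (Nat.cast_nonneg _)
      have h5 : |r.num| ≤ (B : ℤ) := by exact_mod_cast h4
      rw [abs_le] at h5
      exact ⟨h5, h1⟩
    · intro r _ s _ h
      simp only [Prod.mk.injEq] at h
      exact Rat.ext h.1 h.2
  refine hfin.subset fun r hr => ?_
  have hr' : |θ - r| < 1 / (r.den : ℝ) ^ 2 := hr
  refine ⟨?_, ?_⟩
  · by_contra h
    exact absurd hr' (not_lt.2 (hcon r (not_lt.1 h)))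
  · refine hr'.trans_le ?_
    have : (1 : ℝ) ≤ r.den := by exact_mod_cast r.pos
    rw [div_le_one (by positivity)]
    nlinarith

/-- **Well spaced points `m - n θ`** -/
theorem rot {θ : ℝ} (hθ0 : 0 < θ) (hθ : Irrational θ) (y₀ : ℝ) : ∀ L : ℝ, 0 < L → ∀ Q₀ : ℕ, ∃ Q ≥ Q₀, ∀ y ≥ y₀,
    ∃ S : Finset ℝ, L * Q / 10 ≤ S.card ∧
      (∀ γ ∈ S, y ≤ γ ∧ γ ≤ y + L ∧ ∃ n m : ℕ, Q ≤ n ∧ n < 2 * Q ∧ γ = m - n * θ) ∧
      ∀ γ ∈ S, ∀ γ' ∈ S, γ ≠ γ' → 1 / (Q : ℝ) ≤ |γ - γ'| := by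
  classical
  intro L hL Q₀
  obtain ⟨r, hr1, hr2⟩ := large_den hθ (max Q₀ (max ⌈18 / L⌉₊ (max ⌈(|y₀| + 1) / θ⌉₊ 4)))
  set q : ℕ := r.den with hq
  have hqQ : Q₀ ≤ q := (le_max_left _ _).trans hr1
  have hq18 : ⌈18 / L⌉₊ ≤ q := (le_max_left _ _).trans ((le_max_right _ _).trans hr1)
  have hqy : ⌈(|y₀| + 1) / θ⌉₊ ≤ q := (le_max_left _ _).trans ((le_max_right _ _).trans ((le_max_right _ _).trans hr1))
  have hq4 : 4 ≤ q := (le_max_right _ _).trans ((le_max_right _ _).trans ((le_max_right _ _).trans hr1))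
  have hqpos : (0 : ℝ) < q := by exact_mod_cast r.pos
  have hLq : 18 ≤ L * q := by
    have h1 : 18 / L ≤ q := (Nat.le_ceil _).trans (by exact_mod_cast hq18)
    rw [div_le_iff₀ hL] at h1
    linarith
  have hyq : |y₀| + 1 ≤ q * θ := by
    have h1 : (|y₀| + 1) / θ ≤ q := (Nat.le_ceil _).trans (by exact_mod_cast hqy)
    rwa [div_le_iff₀ hθ0] at h1
  refine ⟨q, hqQ, fun y hy => ?_⟩
  -- Bezout
  have hcop : IsCoprime r.num (q : ℤ) := Rat.isCoprime_num_den r
  obtain ⟨u, w, huw⟩ := hcop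
  -- `n` for the integer `t`
  set n : ℤ → ℕ := fun t => q + ((-(t * u)) % (q : ℤ)).toNat with hn
  have hqz : (q : ℤ) ≠ 0 := by exact_mod_cast r.den_ne_zero
  have hn1 : ∀ t, q ≤ n t := fun t => Nat.le_add_right _ _
  have hn2 : ∀ t, n t < 2 * q := by
    intro t
    have h1 : (-(t * u)) % (q : ℤ) < q := Int.emod_lt_of_pos _ (by exact_mod_cast r.pos)
    have h2 : 0 ≤ (-(t * u)) % (q : ℤ) := Int.emod_nonneg _ hqz
    have h3 : ((-(t * u)) % (q : ℤ)).toNat < q := by omega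
    simp only [hn]
    omega
  have hdvd : ∀ t, (q : ℤ) ∣ t + n t * r.num := by
    intro t
    have h2 : 0 ≤ (-(t * u)) % (q : ℤ) := Int.emod_nonneg _ hqz
    have h3 : ((n t : ℕ) : ℤ) = q + (-(t * u)) % (q : ℤ) := by
      simp only [hn]
      push_cast
      rw [Int.toNat_of_nonneg h2]
    rw [h3, Int.emod_def]
    refine ⟨r.num * (1 - (-(t * u)) / (q : ℤ)) + t * w, ?_⟩
    have h4 : t = t * (u * r.num + w * q) := by rw [huw, mul_one]
    nth_rewrite 1 [h4]
    ring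
  choose mm hmm using hdvd
  -- the error
  have herr : ∀ t : ℤ, |((mm t : ℝ) - n t * θ) - t / q| < 2 / q := by
    intro t
    have h1 : ((t : ℝ) + n t * r.num) = q * mm t := by exact_mod_cast hmm t
    have h2 : (r : ℝ) = r.num / q := by rw [Rat.cast_def]
    have h3 : ((mm t : ℝ) - n t * θ) - t / q = n t * ((r : ℝ) - θ) := by
      rw [h2]
      field_simp
      linarith
    have hn0 : (0 : ℝ) < n t := by
      have := hn1 t
      exact_mod_cast (by omega : 0 < n t)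
    rw [h3, abs_mul, abs_of_pos hn0, abs_sub_comm]
    have h4 : (n t : ℝ) < 2 * q := by exact_mod_cast hn2 t
    calc (n t : ℝ) * |θ - r| < 2 * q * (1 / (q : ℝ) ^ 2) := mul_lt_mul'' h4 hr2 hn0.le (abs_nonneg _)
      _ = 2 / q := by field_simp
  set f : ℤ → ℝ := fun s => (mm (5 * s) : ℝ) - n (5 * s) * θ with hf
  have hfe : ∀ s : ℤ, |f s - 5 * s / q| < 2 / q := by
    intro s
    have := herr (5 * s)
    push_cast at this
    exact this
  have hsep : ∀ s s' : ℤ, s ≠ s' → 1 / (q : ℝ) ≤ |f s - f s'| := by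
    intro s s' hss
    have h1 := hfe s
    have h2 := hfe s'
    have h3 : (1 : ℝ) ≤ |(s : ℝ) - s'| := by
      have : 1 ≤ |s - s'| := Int.one_le_abs (sub_ne_zero.2 hss)
      exact_mod_cast this
    have h4 : 5 / (q : ℝ) ≤ |5 * (s : ℝ) / q - 5 * s' / q| := by
      rw [← sub_div, ← mul_sub, abs_div, abs_mul, abs_of_pos hqpos]
      norm_num
      exact div_le_div_of_nonneg_right (by linarith) hqpos.le
    have h5 : |5 * (s : ℝ) / q - 5 * s' / q| ≤ |f s - f s'| + |f s - 5 * s / q| + |f s' - 5 * s' / q| := by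
      have e : 5 * (s : ℝ) / q - 5 * s' / q = (f s - f s') - (f s - 5 * s / q) + (f s' - 5 * s' / q) := by ring
      rw [e]
      refine (abs_add_le _ _).trans ?_
      gcongr
      exact abs_sub _ _
    have h6 : 5 / (q : ℝ) = 1 / q + 2 / q + 2 / q := by ring
    linarith
  have hinj : Function.Injective f := by
    intro s s' h
    by_contra hne
    have := hsep s s' hne
    rw [h, sub_self, abs_zero] at this
    have : 0 < 1 / (q : ℝ) := by positivity
    linarith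
  set I : Finset ℤ := Finset.Icc ⌈(y * q + 2) / 5⌉ ⌊((y + L) * q - 2) / 5⌋ with hI
  have hmem : ∀ s ∈ I, y ≤ f s ∧ f s ≤ y + L := by
    intro s hs
    rw [hI, Finset.mem_Icc, Int.ceil_le, Int.le_floor] at hs
    obtain ⟨h1, h2⟩ := hs
    have h3 := abs_lt.1 (hfe s)
    have h4 : y + 2 / q ≤ 5 * s / q := by
      rw [le_div_iff₀ hqpos, add_mul, div_mul_cancel₀ _ hqpos.ne']
      linarith
    have h5 : 5 * s / q ≤ y + L - 2 / q := by
      rw [div_le_iff₀ hqpos, sub_mul, div_mul_cancel₀ _ hqpos.ne']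
      linarith
    constructor <;> linarith [h3.1, h3.2]
  refine ⟨I.image f, ?_, ?_, ?_⟩
  · rw [Finset.card_image_of_injective _ hinj, hI, Int.card_Icc]
    have h1 := Int.ceil_lt_add_one ((y * q + 2) / 5)
    have h2 := Int.lt_floor_add_one (((y + L) * q - 2) / 5)
    have h3 : L * q / 10 ≤ (((⌊((y + L) * q - 2) / 5⌋ + 1 - ⌈(y * q + 2) / 5⌉ : ℤ)) : ℝ) := by
      push_cast
      have h4 : ((y + L) * q - 2) / 5 - (y * q + 2) / 5 = (L * q - 4) / 5 := by ring
      linarith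
    refine h3.trans ?_
    have h4 := Int.self_le_toNat (⌊((y + L) * q - 2) / 5⌋ + 1 - ⌈(y * q + 2) / 5⌉)
    exact_mod_cast h4
  · intro γ hγ
    rw [Finset.mem_image] at hγ
    obtain ⟨s, hs, rfl⟩ := hγ
    obtain ⟨h1, h2⟩ := hmem s hs
    have h3 : 0 ≤ mm (5 * s) := by
      by_contra hcon
      push Not at hcon
      have h4 : (mm (5 * s) : ℝ) ≤ 0 := by exact_mod_cast hcon.le
      have h5 : (q : ℝ) * θ ≤ n (5 * s) * θ := by
        have : (q : ℝ) ≤ n (5 * s) := by exact_mod_cast hn1 (5 * s)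
        exact mul_le_mul_of_nonneg_right this hθ0.le
      have h6 : f s ≤ -(|y₀| + 1) := by
        simp only [hf]
        linarith
      have h7 := neg_abs_le y₀
      linarith
    refine ⟨h1, h2, n (5 * s), (mm (5 * s)).toNat, hn1 _, hn2 _, ?_⟩
    simp only [hf]
    congr 1
    exact_mod_cast (Int.toNat_of_nonneg h3).symm
  · intro γ hγ γ' hγ' hne
    rw [Finset.mem_image] at hγ hγ'
    obtain ⟨s, hs, rfl⟩ := hγ
    obtain ⟨s', hs', rfl⟩ := hγ'
    exact hsep s s' fun h => hne (by rw [h])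

/-- the dilations with a very near coincidence -/
def TD (a b : ℝ) (k : ℕ) : Set ℝ := {c | ∃ n m : ℕ, k ≤ n ∧ |c * a ^ n - b ^ m| < Real.exp (-((k : ℝ) * n))}

lemma TD_meas (a b : ℝ) (k : ℕ) : MeasurableSet (TD a b k) := by
  have h : TD a b k = ⋃ n : ℕ, ⋃ m : ℕ, {c | k ≤ n ∧ |c * a ^ n - b ^ m| < Real.exp (-((k : ℝ) * n))} := by
    ext c
    simp only [TD, Set.mem_iUnion, Set.mem_ofPred_eq]
  rw [h]
  refine IsOpen.measurableSet (isOpen_iUnion fun n => isOpen_iUnion fun m => ?_)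
  by_cases hk : k ≤ n
  · simp only [hk, true_and]
    exact isOpen_lt (by fun_prop) continuous_const
  · simp only [hk, false_and]
    exact isOpen_empty

/-- differences of powers -/
lemma rpow_sep {b u : ℝ} (hb : 1 < b) {γ γ' : ℝ} (hu : 0 ≤ u) (h1 : u ≤ b ^ γ) (h2 : u ≤ b ^ γ') :
    u * Real.log b * |γ - γ'| ≤ |b ^ γ - b ^ γ'| := by
  have hb0 : 0 < b := by linarith
  wlog h : γ' ≤ γ generalizing γ γ' with H
  · rw [abs_sub_comm γ, abs_sub_comm (b ^ γ)]
    exact H h2 h1 (le_of_not_ge h)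
  have h3 : b ^ γ = b ^ γ' * b ^ (γ - γ') := by
    rw [← Real.rpow_add hb0]
    congr 1
    ring
  have h4 : 1 + Real.log b * (γ - γ') ≤ b ^ (γ - γ') := by
    rw [Real.rpow_def_of_pos hb0]
    linarith [Real.add_one_le_exp (Real.log b * (γ - γ'))]
  have h5 : b ^ γ' ≤ b ^ γ := Real.rpow_le_rpow_of_exponent_le hb.le h
  rw [abs_of_nonneg (by linarith), abs_of_nonneg (by linarith), h3]
  have h6 : 0 ≤ Real.log b * (γ - γ') := mul_nonneg (Real.log_pos hb).le (by linarith)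
  have h7 : 0 < b ^ γ' := Real.rpow_pos_of_pos hb0 _
  nlinarith

theorem bad_dilations {a b : ℝ} (ha : 1 < a) (hb : 1 < b) (hirr : Irrational (Real.log a / Real.log b)) {u v : ℝ}
    (hu : 0 < u) (huv : u < v) (h : ℕ → ℝ) (hh : Tendsto h atTop atTop) :
    ∃ ν : Measure ℝ, IsProbabilityMeasure ν ∧ (∀ᵐ c ∂ν, c ∈ Set.Icc u v ∧ ∀ k, c ∈ TD a b k) ∧
      ∀ᶠ j : ℕ in atTop, ∀ x, ν.real (Set.Icc x (x + Real.exp (-(j : ℝ)))) ≤ h j / (j : ℝ) ^ 1 := by
  classical
  have hla : 0 < Real.log a := Real.log_pos ha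
  have hlb : 0 < Real.log b := Real.log_pos hb
  have hb0 : 0 < b := by linarith
  have ha0 : 0 < a := by linarith
  have hv : 0 < v := by linarith
  set θ : ℝ := Real.log a / Real.log b with hθ
  have hθ0 : 0 < θ := by positivity
  have hbθ : ∀ n : ℕ, b ^ (n * θ) = a ^ n := by
    intro n
    rw [Real.rpow_def_of_pos hb0, ← Real.rpow_natCast, Real.rpow_def_of_pos ha0, hθ]
    congr 1
    field_simp
  refine frostman 1 le_rfl u v huv (TD a b) (TD_meas a b) (fun k => 2 * k + 2 * Real.log a + 1) (fun k => by positivity)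
    (1 / (4 * v * Real.log b) / 10) (u * Real.log b) (by positivity) (by positivity) ?_ h hh
  intro k δ hδ Q₀
  -- `Q` is large
  have hex : ∃ Q₁ : ℕ, ∀ Q : ℕ, Q₁ ≤ Q → k ≤ Q ∧ 1 ≤ Q ∧ Real.exp (-((2 * k + 2 * Real.log a + 1) * Q)) ≤ δ / 2 := by
    have h1 : Tendsto (fun Q : ℕ => Real.exp (-((2 * k + 2 * Real.log a + 1) * Q))) atTop (𝓝 0) := by
      refine Real.tendsto_exp_neg_atTop_nhds_zero.comp ?_
      exact tendsto_natCast_atTop_atTop.const_mul_atTop (by positivity)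
    obtain ⟨Q₁, hQ₁⟩ := eventually_atTop.1 ((h1.eventually_le_const (by positivity : (0 : ℝ) < δ / 2)).and (eventually_ge_atTop (max k 1)))
    exact ⟨Q₁, fun Q hQ => ⟨(le_max_left _ _).trans (hQ₁ Q hQ).2, (le_max_right _ _).trans (hQ₁ Q hQ).2, (hQ₁ Q hQ).1⟩⟩
  obtain ⟨Q₁, hQ₁⟩ := hex
  set L : ℝ := δ / (4 * v * Real.log b) with hL
  have hL0 : 0 < L := by positivity
  obtain ⟨Q, hQ, hS⟩ := rot hθ0 hirr (Real.logb b u) L hL0 (max Q₀ Q₁)
  have hQ0 : Q₀ ≤ Q := (le_max_left _ _).trans hQ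
  obtain ⟨hkQ, hQ1, hexpQ⟩ := hQ₁ Q ((le_max_right _ _).trans hQ)
  refine ⟨Q, hQ0, fun x hx hxv => ?_⟩
  have hx0 : 0 < x := by linarith
  obtain ⟨S, hS1, hS2, hS3⟩ := hS (Real.logb b x) (Real.logb_le_logb_of_le hb hu hx)
  have hbx : b ^ Real.logb b x = x := Real.rpow_logb hb0 hb.ne' hx0
  have hlow : ∀ γ ∈ S, x ≤ b ^ γ := by
    intro γ hγ
    rw [← hbx]
    exact Real.rpow_le_rpow_of_exponent_le hb.le (hS2 γ hγ).1
  have hup : ∀ γ ∈ S, b ^ γ ≤ x + δ / 2 := by
    intro γ hγ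
    have h1 : b ^ γ ≤ b ^ (Real.logb b x + L) := Real.rpow_le_rpow_of_exponent_le hb.le (hS2 γ hγ).2.1
    rw [Real.rpow_add hb0, hbx] at h1
    refine h1.trans ?_
    have h2 : b ^ L = Real.exp (δ / (4 * v)) := by
      rw [Real.rpow_def_of_pos hb0, hL]
      congr 1
      field_simp
    have hδv : δ ≤ v := by linarith
    have h3 : δ / (4 * v) ≤ 1 := by
      rw [div_le_one (by positivity)]
      linarith
    have h4 : Real.exp (δ / (4 * v)) ≤ 1 + 2 * (δ / (4 * v)) := by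
      have h5 : 0 ≤ δ / (4 * v) := by positivity
      have h6 := Real.abs_exp_sub_one_le (x := δ / (4 * v)) (by rwa [abs_of_nonneg h5])
      rw [abs_of_nonneg h5] at h6
      linarith [(abs_le.1 h6).2]
    rw [h2]
    have hxv' : x ≤ v := by linarith
    calc x * Real.exp (δ / (4 * v)) ≤ x * (1 + 2 * (δ / (4 * v))) := mul_le_mul_of_nonneg_left h4 hx0.le
      _ = x + δ / 2 * (x / v) := by
          field_simp
          ring
      _ ≤ x + δ / 2 := by
          have : x / v ≤ 1 := (div_le_one hv).2 hxv'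
          nlinarith
  have hinj : Set.InjOn (fun γ : ℝ => b ^ γ) (S : Set ℝ) := by
    intro γ _ γ' _ h
    exact (Real.rpow_right_inj hb0 hb.ne').1 h
  refine ⟨S.image fun γ : ℝ => b ^ γ, ?_, ?_, ?_⟩
  · rw [Finset.card_image_of_injOn hinj, pow_one]
    refine le_trans (le_of_eq ?_) hS1
    rw [hL]
    field_simp
  · intro z hz
    rw [Finset.mem_image] at hz
    obtain ⟨γ, hγ, rfl⟩ := hz
    refine ⟨hlow γ hγ, by linarith [hup γ hγ], ?_⟩
    obtain ⟨-, -, n, m, hn1, hn2, hγe⟩ := hS2 γ hγ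
    intro c hc
    refine ⟨n, m, hkQ.trans hn1, ?_⟩
    have h1 : b ^ γ * a ^ n = b ^ m := by
      rw [← hbθ n, ← Real.rpow_add hb0, hγe, sub_add_cancel, Real.rpow_natCast]
    have h2 : c * a ^ n - b ^ m = (c - b ^ γ) * a ^ n := by rw [← h1]; ring
    have han : 0 < a ^ n := by positivity
    rw [h2, abs_mul, abs_of_pos han, abs_of_nonneg (by linarith [hc.1])]
    have h3 : c - b ^ γ ≤ Real.exp (-((2 * k + 2 * Real.log a + 1) * Q)) := by linarith [hc.2]
    have h4 : a ^ n = Real.exp (n * Real.log a) := by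
      rw [← Real.rpow_natCast, Real.rpow_def_of_pos ha0, mul_comm]
    calc (c - b ^ γ) * a ^ n ≤ Real.exp (-((2 * k + 2 * Real.log a + 1) * Q)) * Real.exp (n * Real.log a) := by
          rw [h4]
          exact mul_le_mul_of_nonneg_right h3 (Real.exp_pos _).le
      _ = Real.exp (-((2 * k + 2 * Real.log a + 1) * Q) + n * Real.log a) := by rw [Real.exp_add]
      _ < Real.exp (-((k : ℝ) * n)) := by
          rw [Real.exp_lt_exp]
          have h5 : (n : ℝ) ≤ 2 * Q := by exact_mod_cast hn2.le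
          have h6 : (1 : ℝ) ≤ Q := by exact_mod_cast hQ1
          have h7 : (n : ℝ) * Real.log a ≤ 2 * Q * Real.log a := mul_le_mul_of_nonneg_right h5 hla.le
          have h8 : (k : ℝ) * n ≤ k * (2 * Q) := mul_le_mul_of_nonneg_left h5 (Nat.cast_nonneg _)
          nlinarith
  · intro z hz z' hz' hne
    rw [Finset.mem_image] at hz hz'
    obtain ⟨γ, hγ, rfl⟩ := hz
    obtain ⟨γ', hγ', rfl⟩ := hz'
    have h1 := rpow_sep hb hu.le (hx.trans (hlow γ hγ)) (hx.trans (hlow γ' hγ'))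
    have h2 := hS3 γ hγ γ' hγ' fun h => hne (by rw [h])
    rw [pow_one]
    calc u * Real.log b / Q = u * Real.log b * (1 / Q) := by ring
      _ ≤ u * Real.log b * |γ - γ'| := mul_le_mul_of_nonneg_left h2 (by positivity)
      _ ≤ _ := h1

end Pool.Agent.HP25.NC
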