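import Pool.Agent.HP25.NC.D

/-!
# Well spaced fractions, and measures carried by bases with infinitely many very near coincidences
-/

set_option autoImplicit false

namespace Pool.Agent.HP25.NC

open MeasureTheory Filter Topology

/-- multiples of `d` in an interval -/
lemma dvd_card {s : Finset ℕ} {α l : ℝ} (hl : 0 ≤ l) {d : ℕ} (hd : 0 < d)
    (hs : ∀ m ∈ s, α ≤ m ∧ (m : ℝ) ≤ α + l ∧ d ∣ m) : (s.card : ℝ) ≤ l / d + 1 := by
  classical
  have hinj : Function.Injective fun m : ℕ => (m : ℝ) := Nat.cast_injective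
  rw [← Finset.card_image_of_injective s hinj]
  refine sep_card (x := α) (by exact_mod_cast hd) hl ?_ ?_
  · intro z hz
    rw [Finset.mem_image] at hz
    obtain ⟨m, hm, rfl⟩ := hz
    exact ⟨(hs m hm).1, (hs m hm).2.1⟩
  · intro z hz w hw hne
    rw [Finset.mem_image] at hz hw
    obtain ⟨m, hm, rfl⟩ := hz
    obtain ⟨m', hm', rfl⟩ := hw
    have h1 : (d : ℤ) ∣ (m : ℤ) - m' := dvd_sub (by exact_mod_cast (hs m hm).2.2) (by exact_mod_cast (hs m' hm').2.2)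
    have h2 : (m : ℤ) - m' ≠ 0 := by
      intro h
      apply hne
      have : m = m' := by omega
      rw [this]
    have h3 : (d : ℤ) ≤ |(m : ℤ) - m'| := Int.le_of_dvd (abs_pos.2 h2) ((dvd_abs _ _).2 h1)
    exact_mod_cast h3

lemma sum_sq (N : ℕ) (hN : 2 ≤ N) : ∑ d ∈ Finset.Icc 2 N, (1 : ℝ) / (d : ℝ) ^ 2 ≤ 3 / 4 - 1 / N := by
  induction N, hN using Nat.le_induction with
  | base => norm_num
  | succ N hN ih =>
    rw [Finset.sum_Icc_succ_top (by omega)]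
    have hN0 : (0 : ℝ) < N := by exact_mod_cast (by omega : 0 < N)
    have h1 : (1 : ℝ) / ((N + 1 : ℕ) : ℝ) ^ 2 ≤ 1 / N - 1 / ((N + 1 : ℕ) : ℝ) := by
      push_cast
      rw [div_sub_div _ _ (by positivity) (by positivity), div_le_div_iff₀ (by positivity) (by positivity)]
      nlinarith
    linarith

lemma sum_inv (N : ℕ) (hN : 1 ≤ N) : ∑ d ∈ Finset.Icc 2 N, (1 : ℝ) / (d : ℝ) ≤ Real.log N := by
  induction N, hN using Nat.le_induction with
  | base => simp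
  | succ N hN ih =>
    rw [Finset.sum_Icc_succ_top (by omega)]
    have hN0 : (0 : ℝ) < N := by exact_mod_cast (by omega : 0 < N)
    have h1 : (1 : ℝ) / ((N + 1 : ℕ) : ℝ) ≤ Real.log ((N + 1 : ℕ) : ℝ) - Real.log N := by
      have h2 := Real.log_le_sub_one_of_pos (x := (N : ℝ) / ((N + 1 : ℕ) : ℝ)) (by positivity)
      rw [Real.log_div (by positivity) (by positivity)] at h2
      have h3 : (N : ℝ) / ((N + 1 : ℕ) : ℝ) - 1 = -(1 / ((N + 1 : ℕ) : ℝ)) := by
        push_cast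
        field_simp
        ring
      linarith
    linarith

/-- **Well spaced fractions.** -/
theorem farey (L : ℝ) (hL : 0 < L) : ∃ Q₁ : ℕ, ∀ Q ≥ Q₁, ∀ y : ℝ, 0 ≤ y → ∃ S : Finset ℝ, L * (Q : ℝ) ^ 2 / 8 ≤ S.card ∧
    (∀ θ ∈ S, y ≤ θ ∧ θ ≤ y + L ∧ ∃ n m : ℕ, 4 * Q ≤ n ∧ n < 5 * Q ∧ θ = m / n) ∧
    ∀ θ ∈ S, ∀ θ' ∈ S, θ ≠ θ' → 1 / (25 * (Q : ℝ) ^ 2) ≤ |θ - θ'| := by
  classical
  -- `Q` is large
  have hev : ∀ᶠ Q : ℕ in atTop, 6 + (1 + 5 * L) * Real.log (5 * Q) ≤ L * Q / 8 := by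
    have h1 : Tendsto (fun Q : ℕ => (5 : ℝ) * Q) atTop atTop := tendsto_natCast_atTop_atTop.const_mul_atTop (by norm_num)
    have h2 := (Real.tendsto_pow_log_div_mul_add_atTop 1 0 1 one_ne_zero).comp h1
    have h3 := h2.eventually_le_const (show (0 : ℝ) < L / (80 * (1 + 5 * L)) by positivity)
    filter_upwards [h3, tendsto_natCast_atTop_atTop.eventually_ge_atTop (96 / L), eventually_ge_atTop 1] with Q hQ1 hQ2 hQ3
    simp only [Function.comp, pow_one, one_mul, add_zero] at hQ1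
    have hQ0 : (0 : ℝ) < Q := by exact_mod_cast hQ3
    rw [div_le_iff₀ (by positivity)] at hQ1
    rw [div_le_iff₀ hL] at hQ2
    have h4 : (1 + 5 * L) * Real.log (5 * Q) ≤ L * Q / 16 := by
      calc (1 + 5 * L) * Real.log (5 * Q) ≤ (1 + 5 * L) * (L / (80 * (1 + 5 * L)) * (5 * Q)) :=
            mul_le_mul_of_nonneg_left hQ1 (by positivity)
        _ = L * Q / 16 := by
            field_simp
            ring
    linarith
  obtain ⟨Q₁, hQ₁⟩ := eventually_atTop.1 (hev.and (eventually_ge_atTop 1))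
  refine ⟨Q₁, fun Q hQ y hy => ?_⟩
  obtain ⟨hlarge, hQ1⟩ := hQ₁ Q hQ
  have hQ0 : (0 : ℝ) < Q := by exact_mod_cast hQ1
  set I : ℕ → Finset ℕ := fun n => Finset.Icc ⌈(n : ℝ) * y⌉₊ ⌊(n : ℝ) * (y + L)⌋₊ with hI
  have hImem : ∀ n, ∀ m ∈ I n, (n : ℝ) * y ≤ m ∧ (m : ℝ) ≤ n * y + n * L := by
    intro n m hm
    rw [hI, Finset.mem_Icc] at hm
    have h1 : (n : ℝ) * y ≤ m := (Nat.le_ceil _).trans (by exact_mod_cast hm.1)
    have h2 : (m : ℝ) ≤ n * (y + L) := by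
      refine le_trans (by exact_mod_cast hm.2) (Nat.floor_le (by positivity))
    exact ⟨h1, by linarith⟩
  have hIcard : ∀ n : ℕ, (n : ℝ) * L - 1 ≤ (I n).card := by
    intro n
    rw [hI, Nat.card_Icc]
    have h1 : ((⌊(n : ℝ) * (y + L)⌋₊ + 1 : ℕ) : ℝ) ≤ ((⌊(n : ℝ) * (y + L)⌋₊ + 1 - ⌈(n : ℝ) * y⌉₊ : ℕ) : ℝ) + (⌈(n : ℝ) * y⌉₊ : ℕ) := by
      exact_mod_cast (le_tsub_add)
    have h2 := Nat.lt_floor_add_one ((n : ℝ) * (y + L))
    have h3 := Nat.ceil_lt_add_one (show 0 ≤ (n : ℝ) * y by positivity)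
    push_cast at h1 ⊢
    linarith
  set J : Finset ℕ := Finset.Ico (4 * Q) (5 * Q) with hJ
  have hJcard : J.card = Q := by
    rw [hJ, Nat.card_Ico]
    omega
  have hJmem : ∀ n ∈ J, (4 : ℝ) * Q ≤ n ∧ (n : ℝ) < 5 * Q := by
    intro n hn
    rw [hJ, Finset.mem_Ico] at hn
    exact ⟨by exact_mod_cast hn.1, by exact_mod_cast hn.2⟩
  set A : Finset (Σ _ : ℕ, ℕ) := J.sigma I with hA
  have hAcard : (Q : ℝ) * (4 * Q * L - 1) ≤ A.card := by
    rw [hA, Finset.card_sigma]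
    push_cast
    calc (Q : ℝ) * (4 * Q * L - 1) = ∑ _n ∈ J, (4 * (Q : ℝ) * L - 1) := by
          rw [Finset.sum_const, hJcard, nsmul_eq_mul]
      _ ≤ ∑ n ∈ J, ((I n).card : ℝ) := by
          refine Finset.sum_le_sum fun n hn => le_trans ?_ (hIcard n)
          have := (hJmem n hn).1
          nlinarith
  set G : Finset (Σ _ : ℕ, ℕ) := A.filter fun p => Nat.Coprime p.2 p.1 with hG
  set B : Finset (Σ _ : ℕ, ℕ) := A.filter fun p => ¬ Nat.Coprime p.2 p.1 with hB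
  have hGB : (G.card : ℝ) + B.card = A.card := by
    exact_mod_cast Finset.card_filter_add_card_filter_not (s := A) fun p => Nat.Coprime p.2 p.1
  set C : ℕ → Finset (Σ _ : ℕ, ℕ) := fun d => (J.filter fun n => d ∣ n).sigma fun n => (I n).filter fun m => d ∣ m with hC
  have hBsub : B ⊆ (Finset.Icc 2 (5 * Q)).biUnion C := by
    rintro ⟨n, m⟩ hp
    rw [hB, Finset.mem_filter, hA, Finset.mem_sigma] at hp
    obtain ⟨⟨h1, h2⟩, h3⟩ := hp
    simp only at h1 h2 h3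
    rw [Finset.mem_biUnion]
    have hn := h1
    rw [hJ, Finset.mem_Ico] at hn
    refine ⟨Nat.gcd m n, ?_, ?_⟩
    · rw [Finset.mem_Icc]
      have h4 : Nat.gcd m n ≤ n := Nat.gcd_le_right m (by omega)
      have h5 : 0 < Nat.gcd m n := Nat.gcd_pos_of_pos_right m (by omega)
      have h6 : Nat.gcd m n ≠ 1 := h3
      omega
    · rw [hC, Finset.mem_sigma, Finset.mem_filter, Finset.mem_filter]
      exact ⟨⟨h1, Nat.gcd_dvd_right m n⟩, h2, Nat.gcd_dvd_left m n⟩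
  have hCcard : ∀ d ∈ Finset.Icc 2 (5 * Q), ((C d).card : ℝ) ≤
      5 * L * (Q : ℝ) ^ 2 * (1 / (d : ℝ) ^ 2) + (Q + 5 * Q * L) * (1 / (d : ℝ)) + 1 := by
    intro d hd
    have hd0 : 0 < d := by
      rw [Finset.mem_Icc] at hd
      omega
    have hd0' : (0 : ℝ) < d := by exact_mod_cast hd0
    rw [hC, Finset.card_sigma]
    push_cast
    have h1 : ∀ n ∈ J.filter (fun n => d ∣ n), (((I n).filter fun m => d ∣ m).card : ℝ) ≤ 5 * Q * L / d + 1 := by
      intro n hn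
      have h2 := (hJmem n (Finset.mem_filter.1 hn).1).2
      have h3 : (((I n).filter fun m => d ∣ m).card : ℝ) ≤ (n * L) / d + 1 := by
        refine dvd_card (α := n * y) (by positivity) hd0 ?_
        intro m hm
        rw [Finset.mem_filter] at hm
        exact ⟨(hImem n m hm.1).1, (hImem n m hm.1).2, hm.2⟩
      refine h3.trans ?_
      gcongr
    have h2 : ((J.filter fun n => d ∣ n).card : ℝ) ≤ Q / d + 1 := by
      refine dvd_card (α := 4 * Q) hQ0.le hd0 ?_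
      intro n hn
      rw [Finset.mem_filter] at hn
      have := hJmem n hn.1
      exact ⟨this.1, by linarith [this.2], hn.2⟩
    calc ∑ n ∈ J.filter (fun n => d ∣ n), (((I n).filter fun m => d ∣ m).card : ℝ)
        ≤ ∑ _n ∈ J.filter (fun n => d ∣ n), (5 * Q * L / d + 1) := Finset.sum_le_sum h1
      _ = ((J.filter fun n => d ∣ n).card : ℝ) * (5 * Q * L / d + 1) := by rw [Finset.sum_const, nsmul_eq_mul]
      _ ≤ (Q / d + 1) * (5 * Q * L / d + 1) := mul_le_mul_of_nonneg_right h2 (by positivity)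
      _ = _ := by
          field_simp
          ring
  have hBcard : (B.card : ℝ) ≤ 5 * L * (Q : ℝ) ^ 2 * (3 / 4) + (Q + 5 * Q * L) * Real.log (5 * Q) + 5 * Q := by
    have h1 : (B.card : ℝ) ≤ ∑ d ∈ Finset.Icc 2 (5 * Q), ((C d).card : ℝ) := by
      exact_mod_cast (Finset.card_le_card hBsub).trans Finset.card_biUnion_le
    have h2 := Finset.sum_le_sum hCcard
    rw [Finset.sum_add_distrib, Finset.sum_add_distrib, ← Finset.mul_sum, ← Finset.mul_sum, Finset.sum_const, nsmul_eq_mul,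
      mul_one, Nat.card_Icc] at h2
    have h3 := sum_sq (5 * Q) (by omega)
    have h4 := sum_inv (5 * Q) (by omega)
    push_cast at h3 h4
    have h5 : ((5 * Q + 1 - 2 : ℕ) : ℝ) ≤ 5 * Q := by
      have : 5 * Q + 1 - 2 ≤ 5 * Q := by omega
      exact_mod_cast this
    have h6 : ∑ d ∈ Finset.Icc 2 (5 * Q), (1 : ℝ) / (d : ℝ) ^ 2 ≤ 3 / 4 := by
      have : 0 ≤ 1 / (5 * (Q : ℝ)) := by positivity
      linarith
    have h7 : 5 * L * (Q : ℝ) ^ 2 * ∑ d ∈ Finset.Icc 2 (5 * Q), (1 : ℝ) / (d : ℝ) ^ 2 ≤ 5 * L * (Q : ℝ) ^ 2 * (3 / 4) :=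
      mul_le_mul_of_nonneg_left h6 (by positivity)
    have h8 : (Q + 5 * Q * L) * ∑ d ∈ Finset.Icc 2 (5 * Q), (1 : ℝ) / (d : ℝ) ≤ (Q + 5 * Q * L) * Real.log (5 * Q) :=
      mul_le_mul_of_nonneg_left h4 (by positivity)
    linarith
  have hGcard : L * (Q : ℝ) ^ 2 / 8 ≤ G.card := by
    have h1 : (6 + (1 + 5 * L) * Real.log (5 * Q)) * Q ≤ L * Q / 8 * Q := mul_le_mul_of_nonneg_right hlarge hQ0.le
    nlinarith
  -- the fractions
  have hpos : ∀ p ∈ G, 0 < p.1 ∧ (p.1 : ℝ) < 5 * Q := by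
    intro p hp
    rw [hG, Finset.mem_filter, hA, Finset.mem_sigma] at hp
    have h1 := hp.1.1
    have h2 := (hJmem _ h1).2
    rw [hJ, Finset.mem_Ico] at h1
    exact ⟨by omega, h2⟩
  have hinj : Set.InjOn (fun p : Σ _ : ℕ, ℕ => (p.2 : ℝ) / (p.1 : ℝ)) (G : Set (Σ _ : ℕ, ℕ)) := by
    rintro ⟨n, m⟩ hp ⟨n', m'⟩ hp' h
    have h1 := hpos _ hp
    have h2 := hpos _ hp'
    have hc := (Finset.mem_filter.1 hp).2
    have hc' := (Finset.mem_filter.1 hp').2
    simp only at h h1 h2 hc hc'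
    rw [div_eq_div_iff (by exact_mod_cast h1.1.ne') (by exact_mod_cast h2.1.ne')] at h
    have h3 : m * n' = m' * n := by exact_mod_cast h
    have h4 : n ∣ n' := hc.symm.dvd_of_dvd_mul_left (h3 ▸ dvd_mul_left n m')
    have h5 : n' ∣ n := hc'.symm.dvd_of_dvd_mul_left (h3 ▸ dvd_mul_left n' m)
    have h6 : n = n' := Nat.dvd_antisymm h4 h5
    subst h6
    have h7 : m = m' := Nat.eq_of_mul_eq_mul_right h1.1 h3
    rw [h7]
  refine ⟨G.image fun p => (p.2 : ℝ) / (p.1 : ℝ), ?_, ?_, ?_⟩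
  · rw [Finset.card_image_of_injOn hinj]
    exact hGcard
  · intro θ hθ
    rw [Finset.mem_image] at hθ
    obtain ⟨⟨n, m⟩, hp, rfl⟩ := hθ
    have h0 := hpos _ hp
    rw [hG, Finset.mem_filter, hA, Finset.mem_sigma] at hp
    obtain ⟨⟨h1, h2⟩, -⟩ := hp
    simp only at h0 h1 h2
    have hn0 : (0 : ℝ) < n := by exact_mod_cast h0.1
    have h3 := hImem n m h2
    rw [hJ, Finset.mem_Ico] at h1
    refine ⟨?_, ?_, n, m, h1.1, h1.2, rfl⟩
    · rw [le_div_iff₀ hn0]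
      linarith [h3.1]
    · rw [div_le_iff₀ hn0]
      linarith [h3.2]
  · intro θ hθ θ' hθ' hne
    rw [Finset.mem_image] at hθ hθ'
    obtain ⟨⟨n, m⟩, hp, rfl⟩ := hθ
    obtain ⟨⟨n', m'⟩, hp', rfl⟩ := hθ'
    have h1 := hpos _ hp
    have h2 := hpos _ hp'
    simp only at h1 h2 hne ⊢
    have hn0 : (0 : ℝ) < n := by exact_mod_cast h1.1
    have hn0' : (0 : ℝ) < n' := by exact_mod_cast h2.1
    rw [div_sub_div _ _ hn0.ne' hn0'.ne'] at *
    rw [abs_div, abs_of_pos (mul_pos hn0 hn0')]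
    have h3 : (m : ℝ) * n' - n * m' ≠ 0 := by
      intro h
      apply hne
      rw [div_eq_div_iff hn0.ne' hn0'.ne']
      linarith
    have h4 : (1 : ℝ) ≤ |(m : ℝ) * n' - n * m'| := by
      have h5 : (m : ℤ) * n' - n * m' ≠ 0 := by
        intro h
        apply h3
        exact_mod_cast h
      have h6 := Int.one_le_abs h5
      exact_mod_cast h6
    rw [div_le_div_iff₀ (by positivity) (by positivity)]
    have h5 : (n : ℝ) * n' ≤ 5 * Q * (5 * Q) := mul_le_mul h1.2.le h2.2.le hn0'.le (by positivity)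
    nlinarith

/-- the bases with a very near coincidence -/
def TB (b : ℝ) (k : ℕ) : Set ℝ := {a | ∃ n m : ℕ, k ≤ n ∧ |a ^ n - b ^ m| < Real.exp (-((k : ℝ) * n))}

lemma TB_meas (b : ℝ) (k : ℕ) : MeasurableSet (TB b k) := by
  have h : TB b k = ⋃ n : ℕ, ⋃ m : ℕ, {a | k ≤ n ∧ |a ^ n - b ^ m| < Real.exp (-((k : ℝ) * n))} := by
    ext c
    simp only [TB, Set.mem_iUnion, Set.mem_ofPred_eq]
  rw [h]
  refine IsOpen.measurableSet (isOpen_iUnion fun n => isOpen_iUnion fun m => ?_)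
  by_cases hk : k ≤ n
  · simp only [hk, true_and]
    exact isOpen_lt (by fun_prop) continuous_const
  · simp only [hk, false_and]
    exact isOpen_empty

lemma pow_diff {z a v : ℝ} (hz : 0 ≤ z) (hza : z ≤ a) (hav : a ≤ v) (hv : 1 ≤ v) (n : ℕ) :
    a ^ n - z ^ n ≤ n * v ^ n * (a - z) := by
  induction n with
  | zero => simp
  | succ n ih =>
    have h1 : a ^ (n + 1) - z ^ (n + 1) = a * (a ^ n - z ^ n) + z ^ n * (a - z) := by ring
    have h2 : 0 ≤ a ^ n - z ^ n := sub_nonneg.2 (pow_le_pow_left₀ hz hza n)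
    have h3 : a * (a ^ n - z ^ n) ≤ v * (n * v ^ n * (a - z)) := mul_le_mul hav ih h2 (by linarith)
    have h4 : z ^ n ≤ v ^ (n + 1) := by
      calc z ^ n ≤ v ^ n := pow_le_pow_left₀ hz (by linarith) n
        _ ≤ v ^ (n + 1) := pow_le_pow_right₀ hv (by omega)
    have h5 : z ^ n * (a - z) ≤ v ^ (n + 1) * (a - z) := mul_le_mul_of_nonneg_right h4 (by linarith)
    rw [h1]
    push_cast
    calc a * (a ^ n - z ^ n) + z ^ n * (a - z) ≤ v * (n * v ^ n * (a - z)) + v ^ (n + 1) * (a - z) := by linarith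
      _ = (n + 1) * v ^ (n + 1) * (a - z) := by ring

theorem bad_bases {b : ℝ} (hb : 1 < b) {u v : ℝ} (hu : 1 < u) (huv : u < v) (h : ℕ → ℝ) (hh : Tendsto h atTop atTop) :
    ∃ ν : Measure ℝ, IsProbabilityMeasure ν ∧ (∀ᵐ a ∂ν, a ∈ Set.Icc u v ∧ ∀ k, a ∈ TB b k) ∧
      ∀ᶠ j : ℕ in atTop, ∀ x, ν.real (Set.Icc x (x + Real.exp (-(j : ℝ)))) ≤ h j / (j : ℝ) ^ 2 := by
  classical
  have hlb : 0 < Real.log b := Real.log_pos hb
  have hb0 : 0 < b := by linarith
  have hv : 0 < v := by linarith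
  have hv1 : 1 < v := by linarith
  have hlv : 0 < Real.log v := Real.log_pos hv1
  have hu0 : 0 < u := by linarith
  refine frostman 2 (by norm_num) u v huv (TB b) (TB_meas b) (fun k => 5 * k + 5 + 5 * Real.log v + 1) (fun k => by positivity)
    (1 / (4 * v * Real.log b) / 8) (u * Real.log b / 25) (by positivity) (by positivity) ?_ h hh
  intro k δ hδ Q₀
  have hex : ∃ Q₁ : ℕ, ∀ Q : ℕ, Q₁ ≤ Q → k ≤ Q ∧ 1 ≤ Q ∧ Real.exp (-((5 * k + 5 + 5 * Real.log v + 1) * Q)) ≤ δ / 2 := by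
    have h1 : Tendsto (fun Q : ℕ => Real.exp (-((5 * k + 5 + 5 * Real.log v + 1) * Q))) atTop (𝓝 0) := by
      refine Real.tendsto_exp_neg_atTop_nhds_zero.comp ?_
      exact tendsto_natCast_atTop_atTop.const_mul_atTop (by positivity)
    obtain ⟨Q₁, hQ₁⟩ := eventually_atTop.1 ((h1.eventually_le_const (by positivity : (0 : ℝ) < δ / 2)).and (eventually_ge_atTop (max k 1)))
    exact ⟨Q₁, fun Q hQ => ⟨(le_max_left _ _).trans (hQ₁ Q hQ).2, (le_max_right _ _).trans (hQ₁ Q hQ).2, (hQ₁ Q hQ).1⟩⟩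
  obtain ⟨Q₁, hQ₁⟩ := hex
  set L : ℝ := δ / (4 * v * Real.log b) with hL
  have hL0 : 0 < L := by positivity
  obtain ⟨Q₂, hS⟩ := farey L hL0
  set Q : ℕ := max Q₀ (max Q₁ Q₂) with hQdef
  have hQ0 : Q₀ ≤ Q := le_max_left _ _
  obtain ⟨hkQ, hQ1, hexpQ⟩ := hQ₁ Q ((le_max_left _ _).trans (le_max_right _ _))
  have hQ2 : Q₂ ≤ Q := (le_max_right _ _).trans (le_max_right _ _)
  refine ⟨Q, hQ0, fun x hx hxv => ?_⟩
  have hx0 : 0 < x := by linarith
  obtain ⟨S, hS1, hS2, hS3⟩ := hS Q hQ2 (Real.logb b x) (Real.logb_nonneg hb (by linarith))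
  have hbx : b ^ Real.logb b x = x := Real.rpow_logb hb0 hb.ne' hx0
  have hlow : ∀ γ ∈ S, x ≤ b ^ γ := by
    intro γ hγ
    rw [← hbx]
    exact Real.rpow_le_rpow_of_exponent_le hb.le (hS2 γ hγ).1
  have hup : ∀ γ ∈ S, b ^ γ ≤ x + δ / 2 := by
    intro γ hγ
    have h1 : b ^ γ ≤ b ^ (Real.logb b x + L) := Real.rpow_le_rpow_of_exponent_le hb.le (hS2 γ hγ).2.1
    rw [Real.rpow_add hb0, hbx] at h1
    refine h1.trans ?_
    have h2 : b ^ L = Real.exp (δ / (4 * v)) := by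
      rw [Real.rpow_def_of_pos hb0, hL]
      congr 1
      field_simp
    have hδv : δ ≤ v := by linarith
    have h3 : δ / (4 * v) ≤ 1 := by
      rw [div_le_one (by positivity)]
      linarith
    have h4 : Real.exp (δ / (4 * v)) ≤ 1 + 2 * (δ / (4 * v)) := by
      have h5 : 0 ≤ δ / (4 * v) := by positivity
      have h6 := Real.abs_exp_sub_one_le (x := δ / (4 * v)) (by rwa [abs_of_nonneg h5])
      rw [abs_of_nonneg h5] at h6
      linarith [(abs_le.1 h6).2]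
    rw [h2]
    have hxv' : x ≤ v := by linarith
    calc x * Real.exp (δ / (4 * v)) ≤ x * (1 + 2 * (δ / (4 * v))) := mul_le_mul_of_nonneg_left h4 hx0.le
      _ = x + δ / 2 * (x / v) := by
          field_simp
          ring
      _ ≤ x + δ / 2 := by
          have : x / v ≤ 1 := (div_le_one hv).2 hxv'
          nlinarith
  have hinj : Set.InjOn (fun γ : ℝ => b ^ γ) (S : Set ℝ) := by
    intro γ _ γ' _ h
    exact (Real.rpow_right_inj hb0 hb.ne').1 h
  refine ⟨S.image fun γ : ℝ => b ^ γ, ?_, ?_, ?_⟩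
  · rw [Finset.card_image_of_injOn hinj]
    refine le_trans (le_of_eq ?_) hS1
    rw [hL]
    field_simp
  · intro z hz
    rw [Finset.mem_image] at hz
    obtain ⟨γ, hγ, rfl⟩ := hz
    refine ⟨hlow γ hγ, by linarith [hup γ hγ], ?_⟩
    obtain ⟨-, -, n, m, hn1, hn2, hγe⟩ := hS2 γ hγ
    intro a ha
    refine ⟨n, m, hkQ.trans (by omega), ?_⟩
    have hn0 : (n : ℝ) ≠ 0 := by
      have : 0 < n := by omega
      exact_mod_cast this.ne'
    have h1 : (b ^ γ) ^ n = b ^ m := by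
      rw [← Real.rpow_natCast (b ^ γ) n, ← Real.rpow_mul hb0.le, hγe, div_mul_cancel₀ _ hn0, Real.rpow_natCast]
    have hz0 : 0 ≤ b ^ γ := (Real.rpow_pos_of_pos hb0 _).le
    have hza : b ^ γ ≤ a := ha.1
    have hav : a ≤ v := by linarith [ha.2, hup γ hγ]
    have h2 := pow_diff hz0 hza hav hv1.le n
    have h3 : 0 ≤ a ^ n - (b ^ γ) ^ n := sub_nonneg.2 (pow_le_pow_left₀ hz0 hza n)
    rw [h1] at h2 h3
    rw [abs_of_nonneg h3]
    have h4 : a - b ^ γ ≤ Real.exp (-((5 * k + 5 + 5 * Real.log v + 1) * Q)) := by linarith [ha.2]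
    have h5 : v ^ n = Real.exp (n * Real.log v) := by
      rw [← Real.rpow_natCast, Real.rpow_def_of_pos hv, mul_comm]
    have h6 : (n : ℝ) ≤ Real.exp n := by linarith [Real.add_one_le_exp (n : ℝ)]
    calc a ^ n - b ^ m ≤ n * v ^ n * (a - b ^ γ) := h2
      _ ≤ Real.exp n * Real.exp (n * Real.log v) * Real.exp (-((5 * k + 5 + 5 * Real.log v + 1) * Q)) := by
          rw [h5]
          have := (Real.exp_pos (n * Real.log v)).le
          have : 0 ≤ a - b ^ γ := by linarith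
          gcongr
      _ = Real.exp (n + n * Real.log v + -((5 * k + 5 + 5 * Real.log v + 1) * Q)) := by
          rw [Real.exp_add, Real.exp_add]
      _ < Real.exp (-((k : ℝ) * n)) := by
          rw [Real.exp_lt_exp]
          have h7 : (n : ℝ) ≤ 5 * Q := by exact_mod_cast hn2.le
          have h8 : (1 : ℝ) ≤ Q := by exact_mod_cast hQ1
          have h9 : (n : ℝ) * Real.log v ≤ 5 * Q * Real.log v := mul_le_mul_of_nonneg_right h7 hlv.le
          have h10 : (k : ℝ) * n ≤ k * (5 * Q) := mul_le_mul_of_nonneg_left h7 (Nat.cast_nonneg _)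
          nlinarith
  · intro z hz z' hz' hne
    rw [Finset.mem_image] at hz hz'
    obtain ⟨γ, hγ, rfl⟩ := hz
    obtain ⟨γ', hγ', rfl⟩ := hz'
    have h1 := rpow_sep hb hu0.le (hx.trans (hlow γ hγ)) (hx.trans (hlow γ' hγ'))
    have h2 := hS3 γ hγ γ' hγ' fun h => hne (by rw [h])
    calc u * Real.log b / 25 / (Q : ℝ) ^ 2 = u * Real.log b * (1 / (25 * (Q : ℝ) ^ 2)) := by
          field_simp
      _ ≤ u * Real.log b * |γ - γ'| := mul_le_mul_of_nonneg_left h2 (by positivity)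
      _ ≤ _ := h1

end Pool.Agent.HP25.NC
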