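import Pool.Agent.HP25.NC.C
import Pool.Agent.HP25.NC.E

/-!
# Near coincidences: infinitely many pairs, the case of multiplicatively dependent bases
-/

set_option autoImplicit false

namespace Pool.Agent.HP25.NC

open MeasureTheory Filter Topology
open scoped ENNReal
open Pool.Agent.Results.MP_606be1_nt.DilatedNearCoincidences (pairs nearMisses asym near_le)

lemma inf_pairs {f : ℕ → ℕ → ℝ} (h : ∀ k : ℕ, ∃ n m : ℕ, k ≤ n ∧ f n m < Real.exp (-((k : ℝ) * n))) :
    (∀ K : ℝ, {p : ℕ × ℕ | f p.1 p.2 < Real.exp (-(K * p.1))}.Infinite) ∧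
      ∀ x : ℝ, 0 < x → {p : ℕ × ℕ | f p.1 p.2 ≤ x}.Infinite := by
  constructor
  · intro K hfin
    obtain ⟨N, hN⟩ := (hfin.image Prod.fst).bddAbove
    obtain ⟨n, m, hn, hlt⟩ := h (max (N + 1) ⌈K⌉₊)
    have h1 : n ≤ N := by
      refine hN ⟨(n, m), ?_, rfl⟩
      simp only [Set.mem_ofPred_eq]
      refine hlt.trans_le (Real.exp_le_exp.2 (neg_le_neg ?_))
      refine mul_le_mul_of_nonneg_right ?_ (Nat.cast_nonneg _)
      exact (Nat.le_ceil K).trans (by exact_mod_cast le_max_right _ _)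
    have h2 : N + 1 ≤ n := (le_max_left _ _).trans hn
    omega
  · intro x hx hfin
    obtain ⟨N, hN⟩ := (hfin.image Prod.fst).bddAbove
    obtain ⟨M, hM⟩ := exists_nat_ge (-Real.log x)
    obtain ⟨n, m, hn, hlt⟩ := h (max (N + 1) M)
    have h2 : N + 1 ≤ n := (le_max_left _ _).trans hn
    have h1 : n ≤ N := by
      refine hN ⟨(n, m), ?_, rfl⟩
      simp only [Set.mem_ofPred_eq]
      refine hlt.le.trans ?_
      rw [← Real.le_log_iff_exp_le hx]
      have h3 : (M : ℝ) ≤ ((max (N + 1) M : ℕ) : ℝ) := by exact_mod_cast le_max_right _ _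
      have h4 : (1 : ℝ) ≤ n := by exact_mod_cast (by omega : 1 ≤ n)
      have h5 : (0 : ℝ) ≤ ((max (N + 1) M : ℕ) : ℝ) := Nat.cast_nonneg _
      nlinarith
    omega

lemma modulus_le {ν : Measure ℝ} [IsFiniteMeasure ν] {k : ℕ} {y : ℝ}
    (h : ∀ x, ν.real (Set.Icc x (x + Real.exp (-(k : ℝ)))) ≤ y) : modulus ν k ≤ ENNReal.ofReal y := by
  refine iSup_le fun x => ?_
  rw [← ENNReal.ofReal_toReal (measure_ne_top ν (Set.Icc x (x + Real.exp (-(k : ℝ)))))]
  exact ENNReal.ofReal_le_ofReal (h x)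

/-- powers of dependent bases -/
lemma dependent {a b : ℝ} (ha : 1 < a) (hb : 1 < b) (h : ¬ Irrational (Real.log a / Real.log b)) :
    ∃ p q : ℕ, 0 < p ∧ 0 < q ∧ (q : ℝ) * Real.log a = p * Real.log b := by
  have hla : 0 < Real.log a := Real.log_pos ha
  have hlb : 0 < Real.log b := Real.log_pos hb
  rw [Irrational, not_not] at h
  obtain ⟨r, hr⟩ := h
  have hr0 : 0 < (r : ℝ) := by
    rw [hr]
    positivity
  have hr1 : 0 < r := by exact_mod_cast hr0
  have hnum : 0 < r.num := Rat.num_pos.2 hr1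
  refine ⟨r.num.toNat, r.den, by omega, r.pos, ?_⟩
  have h1 : ((r.num.toNat : ℕ) : ℝ) = (r.num : ℝ) := by exact_mod_cast Int.toNat_of_nonneg hnum.le
  have h2 : (r : ℝ) = r.num / r.den := by rw [Rat.cast_def]
  have hd : (0 : ℝ) < r.den := by exact_mod_cast r.pos
  rw [h2, div_eq_div_iff hd.ne' hlb.ne'] at hr
  rw [h1]
  linarith

lemma dependent_gap {a b c : ℝ} (hb : 1 < b) {p q : ℕ} (hq : 0 < q)
    (hpq : (q : ℝ) * Real.log a = p * Real.log b)
    (h : ∀ n m : ℕ, (n : ℝ) * Real.log a + Real.log c ≠ m * Real.log b) :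
    ∃ η : ℝ, 0 < η ∧ ∀ n m : ℕ, η ≤ |(n : ℝ) * Real.log a + Real.log c - m * Real.log b| := by
  have hlb : 0 < Real.log b := Real.log_pos hb
  have hq0 : (0 : ℝ) < q := by exact_mod_cast hq
  set τ : ℝ := q * (Real.log c / Real.log b) with hτ
  have key : ∀ n m : ℕ, (n : ℝ) * Real.log a + Real.log c - m * Real.log b =
      ((((n : ℤ) * p - m * q : ℤ) : ℝ) + τ) * (Real.log b / q) := by
    intro n m
    have h1 : Real.log a = p * Real.log b / q := by
      rw [eq_div_iff hq0.ne']
      linarith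
    rw [h1, hτ]
    push_cast
    field_simp
    ring
  have hpos : 0 < Real.log b / q := by positivity
  by_cases hτz : τ = round τ
  · refine ⟨Real.log b / q, hpos, fun n m => ?_⟩
    have h1 := h n m
    have h2 : (n : ℝ) * Real.log a + Real.log c - m * Real.log b ≠ 0 := sub_ne_zero.2 h1
    rw [key] at h2 ⊢
    rw [abs_mul, abs_of_pos hpos]
    have h3 : (((n : ℤ) * p - m * q : ℤ) : ℝ) + τ ≠ 0 := fun h4 => h2 (by rw [h4, zero_mul])
    rw [hτz] at h3 ⊢
    have h4 : ((n : ℤ) * p - m * q : ℤ) + round τ ≠ 0 := by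
      intro h5
      apply h3
      exact_mod_cast h5
    have h5 : (1 : ℝ) ≤ |(((n : ℤ) * p - m * q : ℤ) : ℝ) + (round τ : ℤ)| := by exact_mod_cast Int.one_le_abs h4
    nlinarith
  · have h0 : 0 < |τ - round τ| := abs_pos.2 (sub_ne_zero.2 hτz)
    refine ⟨|τ - round τ| * (Real.log b / q), by positivity, fun n m => ?_⟩
    rw [key, abs_mul, abs_of_pos hpos]
    refine mul_le_mul_of_nonneg_right ?_ hpos.le
    have h1 := round_le τ (-((n : ℤ) * p - m * q : ℤ))
    refine h1.trans (le_of_eq ?_)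
    congr 1
    push_cast
    ring

/-- dependent bases: finitely many near misses if there is no coincidence -/
theorem dependent_fin {a b c : ℝ} (ha : 1 < a) (hb : 1 < b) (hc : 0 < c) (h : ¬ Irrational (Real.log a / Real.log b))
    (hne : ∀ n m : ℕ, c * a ^ n ≠ b ^ m) : (nearMisses a b c).Finite := by
  have ha0 : 0 < a := by linarith
  have hb0 : 0 < b := by linarith
  obtain ⟨p, q, hp, hq, hpq⟩ := dependent ha hb h
  obtain ⟨η, hη, hgap⟩ := dependent_gap (c := c) hb hq hpq (by
    intro n m h1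
    apply hne n m
    have h2 : Real.log (c * a ^ n) = Real.log (b ^ m) := by
      rw [Real.log_mul hc.ne' (by positivity), Real.log_pow, Real.log_pow]
      linarith
    exact Real.log_injOn_pos (Set.mem_Ioi.2 (by positivity)) (Set.mem_Ioi.2 (by positivity)) h2)
  have hbig : ∀ᶠ n : ℕ in atTop, max 4 (4 / η ^ 2 + 1) ≤ c * a ^ n :=
    ((tendsto_pow_atTop_atTop_of_one_lt ha).const_mul_atTop hc).eventually_ge_atTop _
  obtain ⟨n₁, hn₁⟩ := eventually_atTop.1 hbig
  refine fin_near ha hb hc (n₁ := n₁) fun n hn m hpm => ?_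
  have h1 := hn₁ n hn
  have h4 : 4 ≤ c * a ^ n := (le_max_left _ _).trans h1
  have h5 : 4 / η ^ 2 < c * a ^ n := by linarith [(le_max_right (4 : ℝ) (4 / η ^ 2 + 1)).trans h1]
  have h2 : |c * a ^ n - b ^ m| ^ 2 < c * a ^ n := hpm
  set A : ℝ := c * a ^ n with hA
  have hA0 : 0 < A := by linarith
  set s : ℝ := √A with hs
  have hss : s * s = A := Real.mul_self_sqrt hA0.le
  have hs2 : 2 ≤ s := by
    rw [hs]
    exact Real.le_sqrt_of_sq_le (by linarith)
  have h3 : |A - b ^ m| < s := by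
    rw [hs]
    exact Real.lt_sqrt_of_sq_lt h2
  have hbm : 0 < b ^ m := by positivity
  have h6 := abs_lt.1 h3
  -- logarithms
  have h7 : |Real.log A - Real.log (b ^ m)| ≤ 2 / s := by
    rw [← Real.log_div hA0.ne' hbm.ne', abs_le]
    have hlow : A / 2 ≤ b ^ m := by nlinarith
    constructor
    · have e1 := Real.one_sub_inv_le_log_of_pos (x := A / b ^ m) (by positivity)
      have e2 : (A / b ^ m)⁻¹ = b ^ m / A := inv_div _ _
      rw [e2] at e1
      have e3 : b ^ m / A ≤ 1 + 1 / s := by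
        rw [div_le_iff₀ hA0, ← hss]
        have : (1 + 1 / s) * (s * s) = s * s + s := by
          field_simp
        rw [this, hss]
        linarith
      have e4 : 1 / s ≤ 2 / s := div_le_div_of_nonneg_right (by norm_num) (by linarith)
      linarith
    · have e1 := Real.log_le_sub_one_of_pos (x := A / b ^ m) (by positivity)
      have e3 : A / b ^ m ≤ 1 + 2 / s := by
        rw [div_le_iff₀ hbm]
        have e4 : s ≤ 2 / s * b ^ m := by
          rw [div_mul_eq_mul_div, le_div_iff₀ (by linarith)]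
          linarith
        linarith
      linarith
  have h8 := hgap n m
  rw [hA, Real.log_mul hc.ne' (by positivity), Real.log_pow, Real.log_pow] at h7
  have h9 : (n : ℝ) * Real.log a + Real.log c - m * Real.log b = Real.log c + n * Real.log a - m * Real.log b := by ring
  rw [h9] at h8
  have h10 : η ≤ 2 / s := h8.trans h7
  rw [le_div_iff₀ (by linarith)] at h10
  rw [div_lt_iff₀ (by positivity), ← hss] at h5
  have h11 : (η * s) ^ 2 ≤ 2 ^ 2 := pow_le_pow_left₀ (mul_nonneg hη.le (by linarith)) h10 2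
  have h12 : (η * s) ^ 2 = s * s * η ^ 2 := by ring
  linarith

/-- dependent bases with a coincidence -/
lemma dependent_inf {a b c : ℝ} (ha : 1 < a) (hb : 1 < b) (h : ¬ Irrational (Real.log a / Real.log b)) {n m : ℕ}
    (hnm : c * a ^ n = b ^ m) {x : ℝ} (hx : 0 ≤ x) : (pairs a b c x).Infinite := by
  have ha0 : 0 < a := by linarith
  have hb0 : 0 < b := by linarith
  obtain ⟨p, q, hp, hq, hpq⟩ := dependent ha hb h
  have h1 : a ^ q = b ^ p := by
    have h2 : Real.log (a ^ q) = Real.log (b ^ p) := by rw [Real.log_pow, Real.log_pow, hpq]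
    exact Real.log_injOn_pos (Set.mem_Ioi.2 (by positivity)) (Set.mem_Ioi.2 (by positivity)) h2
  refine Set.infinite_of_injective_forall_mem (f := fun k : ℕ => (n + q * k, m + p * k)) ?_ ?_
  · intro k l hkl
    have := (Prod.ext_iff.1 hkl).1
    simp only at this
    have h3 : q * k = q * l := by omega
    exact Nat.eq_of_mul_eq_mul_left hq h3
  · intro k
    simp only [pairs, Set.mem_ofPred_eq]
    rw [pow_add, pow_add, pow_mul, pow_mul, h1, ← mul_assoc, hnm, sub_self, abs_zero]
    exact hx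

/-- measures with modulus tending to zero have no atoms -/
lemma no_atoms {ν : Measure ℝ} [IsFiniteMeasure ν] {g : ℕ → ℝ} (hg : Tendsto g atTop (𝓝 0))
    (h : ∀ᶠ j : ℕ in atTop, ∀ x, ν.real (Set.Icc x (x + Real.exp (-(j : ℝ)))) ≤ g j) (x : ℝ) : ν {x} = 0 := by
  have h1 : ν.real {x} ≤ 0 := by
    refine ge_of_tendsto hg ?_
    filter_upwards [h] with j hj
    refine le_trans ?_ (hj x)
    refine measureReal_mono ?_
    rw [Set.singleton_subset_iff]
    exact ⟨le_rfl, by linarith [Real.exp_pos (-(j : ℝ))]⟩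
  have h2 : ν.real {x} = 0 := le_antisymm h1 measureReal_nonneg
  rwa [measureReal_eq_zero_iff] at h2

end Pool.Agent.HP25.NC
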